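import Mathlib

set_option autoImplicit false

/-!
# Damped linear oscillators: definitions
-/

namespace Pool.Agent.V1197.VB

open Set MeasureTheory Filter Topology
open scoped ENNReal

/-- Euclidean space `ℝ^d`. -/
abbrev Sp (d : ℕ) := EuclideanSpace ℝ (Fin d)

variable {d : ℕ}

/-- The essential limsup of `|f t|` as `t → ∞`. -/
noncomputable def essLimsup (f : ℝ → Sp d) : ℝ≥0∞ :=
  limsup (fun t => ‖f t‖ₑ) (atTop ⊓ ae (volume : Measure ℝ))

/-- Admissible forcing terms: locally integrable on `[0, ∞)`, with finite essential limsup. -/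
def IsForcing (f : ℝ → Sp d) : Prop :=
  LocallyIntegrableOn f (Ici 0) ∧ essLimsup f < ⊤

/-- `u` is a solution on `[0, ∞)` of `u'' + c u' + A u = f`, with derivative `v = u'`: `u` is `C¹`
with derivative `v`, `v` is locally absolutely continuous, and the equation holds almost
everywhere. -/
structure IsSol (A : Matrix (Fin d) (Fin d) ℝ) (c : ℝ) (f u v : ℝ → Sp d) : Prop where
  deriv : ∀ t ∈ Ici (0:ℝ), HasDerivWithinAt u (v t) (Ici 0) t
  cont : ContinuousOn v (Ici 0)
  ac : ∀ T, 0 < T → AbsolutelyContinuousOnInterval v 0 T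
  eqn : ∀ᵐ t ∂(volume.restrict (Ioi (0:ℝ))),
    ∃ a, HasDerivAt v a t ∧ a + c • v t + Matrix.toEuclideanLin A (u t) = f t

/-- `K` is an admissible constant: `limsup |u'| ≤ K ess limsup |f|` for all forcing terms and all
solutions. -/
def VelBound (A : Matrix (Fin d) (Fin d) ℝ) (c K : ℝ) : Prop :=
  0 ≤ K ∧ ∀ f u v : ℝ → Sp d, IsForcing f → IsSol A c f u v →
    limsup (fun t => ‖v t‖ₑ) atTop ≤ ENNReal.ofReal K * essLimsup f

/-- The smallest admissible constant `K(A, c)`. -/
noncomputable def velConst (A : Matrix (Fin d) (Fin d) ℝ) (c : ℝ) : ℝ := sInf {K | VelBound A c K}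

end Pool.Agent.V1197.VB
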