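import Pool.Agent.V1197.VB.Kern

set_option autoImplicit false

/-!
# The scalar velocity kernel of an underdamped oscillator
-/

namespace Pool.Agent.V1197.VB

open Real Set MeasureTheory Filter Topology

/-- displacement kernel -/
noncomputable def hU (w t : ℝ) : ℝ := exp (-(t / 2)) * (sin (w * t) / w)

/-- velocity kernel -/
noncomputable def gU (w t : ℝ) : ℝ := exp (-(t / 2)) * (cos (w * t) - sin (w * t) / (2 * w))

lemma hasDerivAt_exph (t : ℝ) :
    HasDerivAt (fun t => exp (-(t / 2))) (-(exp (-(t / 2)) / 2)) t := by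
  have h1 := (((hasDerivAt_id t).div_const 2).fun_neg).exp
  refine h1.congr_deriv ?_
  simp only [id]
  ring

lemma hasDerivAt_sinw (w t : ℝ) : HasDerivAt (fun t => sin (w * t)) (w * cos (w * t)) t := by
  have h1 := ((hasDerivAt_id t).const_mul w).sin
  refine h1.congr_deriv ?_
  simp only [id]
  ring

lemma hasDerivAt_cosw (w t : ℝ) : HasDerivAt (fun t => cos (w * t)) (-(w * sin (w * t))) t := by
  have h1 := ((hasDerivAt_id t).const_mul w).cos
  refine h1.congr_deriv ?_
  simp only [id]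
  ring

lemma hasDerivAt_hU {w : ℝ} (hw : 0 < w) (t : ℝ) : HasDerivAt (hU w) (gU w t) t := by
  refine ((hasDerivAt_exph t).mul ((hasDerivAt_sinw w t).div_const w)).congr_deriv ?_
  simp only [gU]
  field_simp
  ring

lemma hasDerivAt_gU {w : ℝ} (hw : 0 < w) (t : ℝ) :
    HasDerivAt (gU w) (-gU w t - (w ^ 2 + 1 / 4) * hU w t) t := by
  refine ((hasDerivAt_exph t).mul ((hasDerivAt_cosw w t).fun_sub
    ((hasDerivAt_sinw w t).div_const (2 * w)))).congr_deriv ?_
  simp only [gU, hU]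
  field_simp
  ring

lemma tendsto_exph : Tendsto (fun t : ℝ => exp (-(t / 2))) atTop (𝓝 0) :=
  tendsto_exp_neg_atTop_nhds_zero.comp (tendsto_id.atTop_div_const two_pos)

lemma integrableOn_exph (T : ℝ) : IntegrableOn (fun t => exp (-(t / 2))) (Ioi T) := by
  have := integrableOn_exp_mul_Ioi (a := -(1/2)) (by norm_num) T
  refine this.congr_fun (fun t _ => ?_) measurableSet_Ioi
  simp only
  congr 1
  ring

lemma integral_exph (T : ℝ) : ∫ t in Ioi T, exp (-(t / 2)) = 2 * exp (-(T / 2)) := by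
  have := integral_exp_mul_Ioi (a := -(1/2)) (by norm_num) T
  have h1 : ∫ t in Ioi T, exp (-(t / 2)) = ∫ t in Ioi T, exp (-(1/2) * t) := by
    refine setIntegral_congr_fun measurableSet_Ioi (fun t _ => ?_)
    congr 1
    ring
  rw [h1, this]
  rw [show -(1/2) * T = -(T/2) by ring]
  ring

/-- envelope constant -/
noncomputable def CU (w : ℝ) : ℝ := √(1 + (1 / (2 * w)) ^ 2)

lemma abs_gU_le {w : ℝ} (t : ℝ) : |gU w t| ≤ CU w * exp (-(t / 2)) := by
  rw [gU, abs_mul, abs_of_pos (exp_pos _), mul_comm]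
  refine mul_le_mul_of_nonneg_right ?_ (exp_pos _).le
  refine Real.abs_le_sqrt ?_
  have h1 := sin_sq_add_cos_sq (w * t)
  have h2 : sin (w * t) / (2 * w) = (1 / (2 * w)) * sin (w * t) := by ring
  rw [h2]
  generalize 1 / (2 * w) = x
  nlinarith [sq_nonneg (sin (w * t) + x * cos (w * t))]

lemma continuous_gU (w : ℝ) : Continuous (gU w) := by
  unfold gU
  fun_prop

lemma integrableOn_gU (w : ℝ) (T : ℝ) : IntegrableOn (gU w) (Ioi T) := by
  refine Integrable.mono' ((integrableOn_exph T).const_mul (CU w))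
    (continuous_gU w).aestronglyMeasurable ?_
  exact Eventually.of_forall (fun t => abs_gU_le t)

lemma tendsto_gU (w : ℝ) : Tendsto (gU w) atTop (𝓝 0) := by
  have h1 := tendsto_exph.const_mul (CU w)
  rw [mul_zero] at h1
  refine squeeze_zero_norm (fun t => ?_) h1
  exact abs_gU_le t

lemma tendsto_hU {w : ℝ} (hw : 0 < w) : Tendsto (hU w) atTop (𝓝 0) := by
  have h1 := tendsto_exph.mul_const (1 / w)
  rw [zero_mul] at h1
  refine squeeze_zero_norm (fun t => ?_) h1
  rw [hU, Real.norm_eq_abs, abs_mul, abs_of_pos (exp_pos _), abs_div, abs_of_pos hw]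
  gcongr
  exact abs_sin_le_one _

lemma hU_nonneg {w : ℝ} (hw : 0 < w) {t : ℝ} (ht : t ∈ Icc 0 (π / w)) : 0 ≤ hU w t := by
  refine mul_nonneg (exp_pos _).le (div_nonneg ?_ hw.le)
  refine sin_nonneg_of_nonneg_of_le_pi (mul_nonneg hw.le ht.1) ?_
  have := mul_le_mul_of_nonneg_left ht.2 hw.le
  rwa [mul_div_cancel₀ _ hw.ne'] at this

lemma gU_le {w : ℝ} (hw : 0 < w) {t : ℝ} (ht : t ∈ Icc 0 (π / w)) : gU w t ≤ exp (-t) := by
  refine le_exp_neg (lam := w ^ 2 + 1 / 4) (by positivity) ?_ (hasDerivAt_gU hw)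
    (fun s hs => hU_nonneg hw hs) ht
  simp [gU]

/-- the part of `|g|` above `exp (-t)` -/
noncomputable def wU (w t : ℝ) : ℝ := max (|gU w t| - exp (-t)) 0

lemma integrableOn_wU (w T : ℝ) : IntegrableOn (wU w) (Ioi T) :=
  ((integrableOn_gU w T).abs.sub (integrableOn_exp_neg_Ioi T)).pos_part

lemma mass_le {w t₁ : ℝ} (hw : 0 < w) (ht₁ : 0 ≤ t₁) (ht₁' : t₁ ≤ π / w)
    (hg : ∀ t ∈ Icc 0 t₁, 0 ≤ gU w t) {F : ℝ → ℝ} (hF : IntegrableOn F (Ioi t₁))
    (hwF : ∀ t ∈ Ioi t₁, wU w t ≤ F t) :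
    ∫ t in Ioi (0:ℝ), wU w t ≤ ∫ t in Ioi t₁, F t := by
  have h0 : ∀ t ∈ Icc 0 t₁, wU w t = 0 := by
    intro t ht
    have h1 := hg t ht
    have h2 := gU_le hw (t := t) ⟨ht.1, ht.2.trans ht₁'⟩
    rw [wU, abs_of_nonneg h1]
    exact max_eq_right (by linarith)
  have h1 : ∫ t in Ioi (0:ℝ), wU w t = ∫ t in Ioi t₁, wU w t := by
    refine setIntegral_eq_of_subset_of_forall_sdiff_eq_zero measurableSet_Ioi
      (Ioi_subset_Ioi ht₁) ?_
    intro t ht
    refine h0 t ⟨le_of_lt ht.1, ?_⟩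
    simpa using ht.2
  rw [h1]
  exact setIntegral_mono_on (integrableOn_wU w t₁) hF measurableSet_Ioi hwF

/-- `sin 1 ≤ 1.6 cos 1`. -/
lemma sin_one_le : sin 1 ≤ 1.6 * cos 1 := by
  have h1 : (7/8 : ℝ) ≤ cos (1/2) := by
    have := Real.one_sub_sq_div_two_le_cos (x := 1/2)
    norm_num at this ⊢
    linarith
  have h2 : (17/32 : ℝ) ≤ cos 1 := by
    have h3 : cos 1 = 2 * cos (1/2) ^ 2 - 1 := by
      rw [← cos_two_mul]
      norm_num
    rw [h3]
    nlinarith
  have h4 := sin_sq_add_cos_sq 1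
  refine abs_le_of_sq_le_sq' ?_ (by positivity) |>.2
  nlinarith

/-- The mass bound for large frequencies. -/
lemma mass_large {w : ℝ} (hw : 0.8 ≤ w) : ∫ t in Ioi (0:ℝ), wU w t ≤ 1 := by
  have hw0 : 0 < w := by linarith
  obtain ⟨x, hx⟩ : ∃ x, x = 1 / (2 * w) := ⟨_, rfl⟩
  have hx0 : 0 < x := by rw [hx]; positivity
  have hC : CU w = √(1 + x ^ 2) := by rw [CU, hx]
  have hC1 : CU w + x ≤ exp x := by
    have h1 : CU w ≤ 1 + x ^ 2 / 2 := by
      rw [hC]
      refine Real.sqrt_le_iff.mpr ⟨by positivity, by nlinarith [sq_nonneg (x ^ 2)]⟩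
    have h2 := Real.quadratic_le_exp_of_nonneg hx0.le
    linarith
  have hC2 : CU w ^ 2 = 1 + x ^ 2 := by rw [hC]; exact Real.sq_sqrt (by positivity)
  have hC0 : 0 ≤ CU w := Real.sqrt_nonneg _
  have ht : (1 / w) / 2 = x := by rw [hx]; field_simp
  have h1 := mass_le (w := w) (t₁ := 1 / w) (F := fun t => CU w * exp (-(t / 2)) - exp (-t)) hw0
    (by positivity) ?_ ?_ (((integrableOn_exph _).const_mul _).sub (integrableOn_exp_neg_Ioi _)) ?_
  · refine h1.trans ?_
    rw [integral_sub ((integrableOn_exph _).const_mul _) (integrableOn_exp_neg_Ioi _),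
      integral_const_mul, integral_exph, integral_exp_neg_Ioi, ht,
      show -(1 / w) = (-x) + (-x) by rw [← ht]; ring, exp_add]
    have h2 : exp (-x) ≤ CU w - x := by
      rw [exp_neg, ← one_div, div_le_iff₀ (exp_pos x)]
      have h3 : x < CU w := by nlinarith
      nlinarith
    nlinarith [exp_pos (-x)]
  · exact div_le_div_of_nonneg_right (by linarith [pi_gt_three]) hw0.le
  · intro t ht
    refine mul_nonneg (exp_pos _).le ?_
    have hs0 : 0 ≤ w * t := mul_nonneg hw0.le ht.1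
    have hs1 : w * t ≤ 1 := by
      have := mul_le_mul_of_nonneg_left ht.2 hw0.le
      rwa [mul_one_div_cancel hw0.ne'] at this
    have h3 : cos 1 ≤ cos (w * t) :=
      cos_le_cos_of_nonneg_of_le_pi hs0 (by linarith [pi_gt_three]) hs1
    have h4 : sin (w * t) ≤ sin 1 :=
      sin_le_sin_of_le_of_le_pi_div_two (by linarith [pi_gt_three]) (by linarith [pi_gt_three]) hs1
    have h5 := sin_one_le
    rw [sub_nonneg, div_le_iff₀ (by positivity)]
    have h6 := cos_one_pos
    nlinarith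
  · intro t ht
    have h2 := abs_gU_le (w := w) t
    refine max_le (by simpa using h2) ?_
    have h3 : 1 ≤ CU w := by
      rw [hC]
      exact Real.one_le_sqrt.mpr (by nlinarith)
    have h4 : exp (-t) ≤ exp (-(t / 2)) := by
      refine exp_le_exp.mpr ?_
      have : 0 < t := lt_trans (by positivity) ht
      linarith
    nlinarith [exp_pos (-(t / 2))]


lemma hU_le {w : ℝ} (hw : 0 < w) {t : ℝ} (ht : 0 ≤ t) : hU w t ≤ 2 * exp (-1) := by
  have h1 : sin (w * t) / w ≤ t := by
    rw [div_le_iff₀ hw]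
    have := sin_le (mul_nonneg hw.le ht)
    linarith
  have h2 : t / 2 ≤ exp (t / 2 - 1) := by
    have := add_one_le_exp (t / 2 - 1)
    linarith
  calc hU w t ≤ exp (-(t / 2)) * t := mul_le_mul_of_nonneg_left h1 (exp_pos _).le
    _ = exp (-(t / 2)) * (2 * (t / 2)) := by ring
    _ ≤ exp (-(t / 2)) * (2 * exp (t / 2 - 1)) := by gcongr
    _ = 2 * (exp (-(t / 2)) * exp (t / 2 - 1)) := by ring
    _ = 2 * exp (-1) := by rw [← exp_add]; congr 2; ring

/-- The mass bound for small frequencies. -/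
lemma mass_small {w : ℝ} (hw : 0 < w) (hw8 : w ≤ 0.8) : ∫ t in Ioi (0:ℝ), wU w t ≤ 1 := by
  obtain ⟨θ, hθ⟩ : ∃ θ, θ = arctan (2 * w) := ⟨_, rfl⟩
  have hθ0 : 0 < θ := by rw [hθ]; exact arctan_pos.mpr (by positivity)
  have hθ1 : θ < π / 2 := by rw [hθ]; exact arctan_lt_pi_div_two _
  have htan : tan θ = 2 * w := by rw [hθ]; exact tan_arctan _
  have hsin : 0 < sin θ := sin_pos_of_pos_of_lt_pi hθ0 (by linarith [pi_pos])
  have hcos : 0 < cos θ := cos_pos_of_mem_Ioo ⟨by linarith [pi_pos], hθ1⟩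
  have hct : cos θ / sin θ = 1 / (2 * w) := by
    rw [← htan, tan_eq_sin_div_cos, one_div_div]
  have hg : ∀ t, gU w t = -(exp (-(t / 2)) * sin (w * t - θ) / sin θ) := by
    intro t
    have h1 : sin (w * t) / (2 * w) = sin (w * t) * (cos θ / sin θ) := by
      rw [hct]; ring
    rw [gU, h1, sin_sub]
    field_simp
    ring
  obtain ⟨t₁, ht₁⟩ : ∃ t₁, t₁ = θ / w := ⟨_, rfl⟩
  obtain ⟨p, hp⟩ : ∃ p, p = π / w := ⟨_, rfl⟩
  have hwt : w * t₁ = θ := by rw [ht₁]; field_simp
  have hwp : w * p = π := by rw [hp]; field_simp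
  have ht0 : 0 < t₁ := by rw [ht₁]; positivity
  have hp0 : 0 < p := by rw [hp]; positivity
  obtain ⟨q, hq⟩ : ∃ q, q = exp (-(p / 2)) := ⟨_, rfl⟩
  have hq0 : 0 < q := by rw [hq]; exact exp_pos _
  have hq1 : q ≤ 0.15 := by
    have h1 : (1.96:ℝ) ≤ p / 2 := by
      rw [hp, div_div, le_div_iff₀ (by positivity)]
      have := pi_gt_d2
      nlinarith
    have h2 : exp (-(p / 2)) ≤ exp (-1.96) := exp_le_exp.mpr (by linarith)
    have h3 : exp (-1.96 : ℝ) = exp (-1) * exp (-1) * exp (0.04) := by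
      rw [← exp_add, ← exp_add]; norm_num
    have h4 : exp (-1 : ℝ) < 0.3678794412 := exp_neg_one_lt_d9
    have h5 : exp (0.04 : ℝ) ≤ 1.05 := by
      have h6 := one_sub_le_exp_neg (0.04 : ℝ)
      have h7 : exp (0.04 : ℝ) = (exp (-0.04 : ℝ))⁻¹ := by rw [exp_neg, inv_inv]
      rw [h7, inv_le_comm₀ (exp_pos _) (by norm_num)]
      linarith
    rw [hq]
    refine h2.trans ?_
    rw [h3]
    have h8 := exp_pos (-1 : ℝ)
    have h9 := exp_pos (0.04 : ℝ)
    have h10 : exp (-1 : ℝ) * exp (-1) ≤ 0.136 := by nlinarith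
    nlinarith
  -- self-similarity
  have hgs : ∀ t, gU w (t + p) = -q * gU w t := by
    intro t
    rw [gU, gU, hq, mul_add, hwp, sin_add_pi, cos_add_pi,
      show -((t + p) / 2) = -(t / 2) + -(p / 2) by ring, exp_add]
    ring
  have hhs : ∀ t, hU w (t + p) = -q * hU w t := by
    intro t
    rw [hU, hU, hq, mul_add, hwp, sin_add_pi,
      show -((t + p) / 2) = -(t / 2) + -(p / 2) by ring, exp_add]
    ring
  obtain ⟨I, hI⟩ : ∃ I, I = ∫ t in Ioi t₁, |gU w t| := ⟨_, rfl⟩
  have hsplit : I = (∫ t in t₁..(t₁ + p), |gU w t|) + ∫ t in Ioi (t₁ + p), |gU w t| := by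
    rw [hI]
    exact (intervalIntegral.integral_interval_add_Ioi' ((continuous_gU w).abs.intervalIntegrable _ _)
      (integrableOn_gU w (t₁ + p)).abs).symm
  have htail : ∫ t in Ioi (t₁ + p), |gU w t| = q * I := by
    have h1 : ∫ t in Ioi (t₁ + p), |gU w t| = ∫ t in Ioi t₁, |gU w (t + p)| := by
      have h2 := (measurePreserving_add_right (volume : Measure ℝ) p).setIntegral_preimage_emb
        (measurableEmbedding_addRight p) (fun t => |gU w t|) (Ioi (t₁ + p))
      have h3 : (fun x : ℝ => x + p) ⁻¹' Ioi (t₁ + p) = Ioi t₁ := by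
        ext x; simp
      rw [h3] at h2
      exact h2.symm
    rw [h1, hI, ← integral_const_mul]
    refine setIntegral_congr_fun measurableSet_Ioi (fun t _ => ?_)
    simp only [hgs, abs_mul, abs_neg, abs_of_pos hq0]
  have hlobe : ∫ t in t₁..(t₁ + p), |gU w t| = (1 + q) * hU w t₁ := by
    have h1 : ∫ t in t₁..(t₁ + p), |gU w t| = ∫ t in t₁..(t₁ + p), -gU w t := by
      refine intervalIntegral.integral_congr (fun t ht => ?_)
      rw [uIcc_of_le (by linarith)] at ht
      refine abs_of_nonpos ?_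
      rw [hg, neg_nonpos]
      refine div_nonneg (mul_nonneg (exp_pos _).le ?_) hsin.le
      refine sin_nonneg_of_nonneg_of_le_pi ?_ ?_
      · have := mul_le_mul_of_nonneg_left ht.1 hw.le
        linarith
      · have := mul_le_mul_of_nonneg_left ht.2 hw.le
        rw [mul_add, hwt, hwp] at this
        linarith
    have h2 : ∫ t in t₁..(t₁ + p), gU w t = hU w (t₁ + p) - hU w t₁ :=
      intervalIntegral.integral_eq_sub_of_hasDerivAt (fun t _ => hasDerivAt_hU hw t)
        ((continuous_gU w).intervalIntegrable _ _)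
    rw [h1, intervalIntegral.integral_neg, h2, hhs]
    ring
  have hI1 : I ≤ 1 := by
    have h1 : I * (1 - q) = (1 + q) * hU w t₁ := by linarith
    have h2 := hU_le hw ht0.le
    have h4 : exp (-1 : ℝ) < 0.3678794412 := exp_neg_one_lt_d9
    have h5 : I * (1 - q) ≤ 1 - q := by
      rw [h1]
      nlinarith
    nlinarith
  refine le_trans (mass_le (t₁ := t₁) (F := fun t => |gU w t|) hw ht0.le ?_ ?_
    (integrableOn_gU w t₁).abs ?_) (hI ▸ hI1)
  · rw [ht₁]
    exact div_le_div_of_nonneg_right (by linarith) hw.le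
  · intro t ht
    rw [hg, neg_nonneg]
    refine div_nonpos_of_nonpos_of_nonneg ?_ hsin.le
    refine mul_nonpos_of_nonneg_of_nonpos (exp_pos _).le ?_
    have h1 := mul_le_mul_of_nonneg_left ht.2 hw.le
    have h2 := mul_nonneg hw.le ht.1
    exact sin_nonpos_of_nonpos_of_neg_pi_le (by linarith) (by linarith)
  · intro t _
    exact max_le (by linarith [exp_pos (-t)]) (abs_nonneg _)

/-- Underdamped case. -/
lemma ker_under {lam : ℝ} (hl : 1 / 4 < lam) : ∃ h g, Ker lam 1 h g := by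
  obtain ⟨w, hw⟩ : ∃ w, w = √(lam - 1 / 4) := ⟨_, rfl⟩
  have hw0 : 0 < w := by rw [hw]; exact Real.sqrt_pos.mpr (by linarith)
  have hw2 : w ^ 2 + 1 / 4 = lam := by
    rw [hw, Real.sq_sqrt (by linarith)]; ring
  refine ⟨hU w, gU w, by simp [hU], by simp [gU], hasDerivAt_hU hw0, ?_, tendsto_hU hw0,
    tendsto_gU w, integrableOn_gU w 0, ?_⟩
  · intro t
    have := hasDerivAt_gU hw0 t
    rw [hw2] at this
    simpa using this
  · have h1 : ∫ t in Ioi (0:ℝ), wU w t ≤ 1 := by
      rcases le_total w 0.8 with h | h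
      · exact mass_small hw0 h
      · exact mass_large h
    simpa [wU] using h1

/-- Every scalar damped oscillator has kernels satisfying the mass bound. -/
theorem ker_one {lam : ℝ} (hl : 0 < lam) : ∃ h g, Ker lam 1 h g := by
  rcases lt_trichotomy lam (1 / 4) with h | h | h
  · exact ker_over hl h
  · rw [h]; exact ker_crit
  · exact ker_under h

/-- General damping constant, by scaling. -/
theorem ker_exists {lam c : ℝ} (hl : 0 < lam) (hc : 0 < c) : ∃ h g, Ker lam c h g := by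
  obtain ⟨h, g, k⟩ := ker_one (lam := lam / c ^ 2) (by positivity)
  have hct : Tendsto (fun t : ℝ => c * t) atTop atTop := tendsto_id.const_mul_atTop hc
  refine ⟨fun t => h (c * t) / c, fun t => g (c * t), by simp [k.h0], by simp [k.g0], ?_, ?_, ?_,
    k.limg.comp hct, ?_, ?_⟩
  · intro t
    have h1 := ((k.dh (c * t)).comp t ((hasDerivAt_id t).const_mul c)).div_const c
    refine h1.congr_deriv ?_
    field_simp
  · intro t
    have h1 := (k.dg (c * t)).comp t ((hasDerivAt_id t).const_mul c)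
    refine h1.congr_deriv ?_
    field_simp
  · have := (k.limh.comp hct).div_const c
    simpa using this
  · have := (integrableOn_Ioi_comp_mul_left_iff g 0 hc).mpr (by simpa using k.int)
    exact this
  · have h1 := integral_comp_mul_left_Ioi (fun t => max (|g t| - exp (-t)) 0) 0 hc
    rw [mul_zero] at h1
    rw [h1, smul_eq_mul, one_div]
    have h2 := k.mass
    simp only [one_mul, div_one] at h2
    exact mul_le_of_le_one_right (by positivity) h2

end Pool.Agent.V1197.VB
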