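import Pool.Agent.V1197.VB.Defs
import Pool.Agent.V1197.VB.KernU

set_option autoImplicit false

/-!
# Duhamel formula
-/

namespace Pool.Agent.V1197.VB

open Set MeasureTheory Filter Topology
open scoped ENNReal

lemma contDiff_of_kernels {lam c : ℝ} {h g : ℝ → ℝ}
    (dh : ∀ t, HasDerivAt h (g t) t) (dg : ∀ t, HasDerivAt g (-(c * g t) - lam * h t) t) :
    ContDiff ℝ 1 h ∧ ContDiff ℝ 1 g := by
  have ch : Continuous h := continuous_iff_continuousAt.mpr fun t => (dh t).continuousAt
  have cg : Continuous g := continuous_iff_continuousAt.mpr fun t => (dg t).continuousAt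
  constructor
  · rw [contDiff_one_iff_deriv]
    refine ⟨fun t => (dh t).differentiableAt, ?_⟩
    rw [show deriv h = g from funext fun t => (dh t).deriv]
    exact cg
  · rw [contDiff_one_iff_deriv]
    refine ⟨fun t => (dg t).differentiableAt, ?_⟩
    rw [show deriv g = fun t => -(c * g t) - lam * h t from funext fun t => (dg t).deriv]
    fun_prop

/-- Scalar Duhamel formula. -/
lemma duhamel {lam c : ℝ} {h g : ℝ → ℝ} (h0 : h 0 = 0) (g0 : g 0 = 1)
    (dh : ∀ t, HasDerivAt h (g t) t) (dg : ∀ t, HasDerivAt g (-(c * g t) - lam * h t) t)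
    {φ ψ F : ℝ → ℝ}
    (hφ : ∀ t ∈ Ici (0:ℝ), HasDerivWithinAt φ (ψ t) (Ici 0) t)
    (hψ : ∀ T, 0 < T → AbsolutelyContinuousOnInterval ψ 0 T)
    (heq : ∀ᵐ t ∂(volume.restrict (Ioi (0:ℝ))),
      ∃ a, HasDerivAt ψ a t ∧ a + c * ψ t + lam * φ t = F t)
    {T₀ t : ℝ} (hT : 0 ≤ T₀) (ht : T₀ ≤ t) :
    ψ t = g (t - T₀) * ψ T₀ - lam * h (t - T₀) * φ T₀ + ∫ s in T₀..t, g (t - s) * F s := by
  rcases eq_or_lt_of_le ht with rfl | ht'
  · simp [h0, g0]
  have ht0 : 0 < t := hT.trans_lt ht'
  obtain ⟨ch, cg⟩ := contDiff_of_kernels dh dg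
  have hsub : uIcc T₀ t ⊆ uIcc 0 t := by
    rw [uIcc_of_le ht, uIcc_of_le ht0.le]
    exact Icc_subset_Icc_left hT
  have aψ : AbsolutelyContinuousOnInterval ψ T₀ t := (hψ t ht0).mono hsub
  have aφ : AbsolutelyContinuousOnInterval φ T₀ t := by
    obtain ⟨M, hM⟩ := (hψ t ht0).exists_bound
    have hM0 : 0 ≤ M := (norm_nonneg _).trans (hM 0 (by simp))
    have h1 : LipschitzOnWith (Real.toNNReal M) φ (uIcc T₀ t) := by
      refine Convex.lipschitzOnWith_of_nnnorm_hasDerivWithin_le (convex_uIcc _ _)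
        (f' := ψ) ?_ ?_
      · intro x hx
        rw [uIcc_of_le ht] at hx
        exact (hφ x (hT.trans hx.1)).mono (by
          rw [uIcc_of_le ht]; intro y hy; exact hT.trans hy.1)
      · intro x hx
        rw [← NNReal.coe_le_coe, coe_nnnorm, Real.coe_toNNReal _ hM0]
        exact hM x (hsub hx)
    exact h1.absolutelyContinuousOnInterval
  have ag : AbsolutelyContinuousOnInterval (fun s => g (t - s)) T₀ t :=
    ((cg.comp (contDiff_const.sub contDiff_id)).contDiffOn).absolutelyContinuousOnInterval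
  have ah : AbsolutelyContinuousOnInterval (fun s => lam * h (t - s)) T₀ t :=
    ((contDiff_const.mul (ch.comp (contDiff_const.sub contDiff_id))).contDiffOn).absolutelyContinuousOnInterval
  have aΦ : AbsolutelyContinuousOnInterval
      (fun s => g (t - s) * ψ s - lam * h (t - s) * φ s) T₀ t :=
    (ag.fun_mul aψ).fun_sub (ah.fun_mul aφ)
  have hint := aΦ.integral_deriv_eq_sub
  have hcongr : ∫ s in T₀..t, deriv (fun s => g (t - s) * ψ s - lam * h (t - s) * φ s) s
      = ∫ s in T₀..t, g (t - s) * F s := by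
    refine intervalIntegral.integral_congr_ae ?_
    rw [ae_restrict_iff' measurableSet_Ioi] at heq
    filter_upwards [heq] with s hs hs'
    rw [uIoc_of_le ht] at hs'
    have hs0 : 0 < s := hT.trans_lt hs'.1
    obtain ⟨a, ha, hF⟩ := hs hs0
    have hφs : HasDerivAt φ (ψ s) s := (hφ s hs0.le).hasDerivAt (Ici_mem_nhds hs0)
    have e1 : HasDerivAt (fun s => g (t - s)) (-(-(c * g (t - s)) - lam * h (t - s))) s := by
      have := (dg (t - s)).comp s ((hasDerivAt_id s).const_sub t)
      refine this.congr_deriv ?_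
      simp
    have e2 : HasDerivAt (fun s => lam * h (t - s)) (lam * (-(g (t - s)))) s := by
      have := ((dh (t - s)).comp s ((hasDerivAt_id s).const_sub t)).const_mul lam
      refine this.congr_deriv ?_
      simp
    have e3 := (e1.fun_mul ha).fun_sub (e2.fun_mul hφs)
    rw [e3.deriv, ← hF]
    ring
  rw [hcongr] at hint
  rw [hint]
  simp only [sub_self, h0, g0]
  ring

variable {d : ℕ}

/-- Composition of an absolutely continuous function with a linear functional. -/
lemma ac_inner {v : ℝ → Sp d} {a b : ℝ} (hv : AbsolutelyContinuousOnInterval v a b) (x : Sp d) :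
    AbsolutelyContinuousOnInterval (fun s => inner ℝ x (v s)) a b := by
  rw [absolutelyContinuousOnInterval_iff] at hv ⊢
  intro ε hε
  obtain ⟨δ, hδ, h⟩ := hv (ε / (‖x‖ + 1)) (by positivity)
  refine ⟨δ, hδ, fun E hE hEδ => ?_⟩
  have h1 := h E hE hEδ
  rw [lt_div_iff₀ (by positivity)] at h1
  refine lt_of_le_of_lt ?_ h1
  rw [Finset.sum_mul]
  refine Finset.sum_le_sum (fun i _ => ?_)
  rw [Real.dist_eq, ← inner_sub_right, dist_eq_norm]
  refine (abs_real_inner_le_norm _ _).trans ?_
  rw [mul_comm]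
  gcongr
  linarith

/-- Component version of the Duhamel formula for a solution of the vector equation. -/
lemma duhamel_comp {A : Matrix (Fin d) (Fin d) ℝ} {c : ℝ} {f u v : ℝ → Sp d}
    (hs : IsSol A c f u v) {lam : ℝ} {x : Sp d}
    (hx : ∀ y, inner ℝ x (Matrix.toEuclideanLin A y) = lam * inner ℝ x y)
    {h g : ℝ → ℝ} (k : Ker lam c h g) {T₀ t : ℝ} (hT : 0 ≤ T₀) (ht : T₀ ≤ t) :
    inner ℝ x (v t) = g (t - T₀) * inner ℝ x (v T₀) - lam * h (t - T₀) * inner ℝ x (u T₀)
      + ∫ s in T₀..t, g (t - s) * inner ℝ x (f s) := by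
  refine duhamel k.h0 k.g0 k.dh k.dg (φ := fun s => inner ℝ x (u s))
    (ψ := fun s => inner ℝ x (v s)) (F := fun s => inner ℝ x (f s)) ?_ ?_ ?_ hT ht
  · intro t ht
    have := (hasDerivWithinAt_const t (Ici (0:ℝ)) x).inner ℝ (hs.deriv t ht)
    simpa using this
  · intro T hT
    exact ac_inner (hs.ac T hT) x
  · filter_upwards [hs.eqn] with t ht
    obtain ⟨a, ha, h1⟩ := ht
    refine ⟨inner ℝ x a, ?_, ?_⟩
    · have := (hasDerivAt_const t x).inner ℝ ha
      simpa using this
    · rw [← h1, inner_add_right, inner_add_right, inner_smul_right, hx]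

end Pool.Agent.V1197.VB
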