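import Mathlib

set_option autoImplicit false

/-!
# The scalar velocity kernel of a damped oscillator

For `g'' + c g' + lam g = 0`, `g 0 = 1`, `g' 0 = -c`, the mass of `|g|` above `exp (-c t)` is at
most `1 / c`.
-/

namespace Pool.Agent.V1197.VB

open Real Set MeasureTheory Filter Topology

/-- `h` is the displacement and `g` the velocity response of the scalar oscillator to a unit
impulse; the mass of `|g|` above `exp (-c t)` is at most `1 / c`. -/
structure Ker (lam c : ℝ) (h g : ℝ → ℝ) : Prop where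
  h0 : h 0 = 0
  g0 : g 0 = 1
  dh : ∀ t, HasDerivAt h (g t) t
  dg : ∀ t, HasDerivAt g (-(c * g t) - lam * h t) t
  limh : Tendsto h atTop (𝓝 0)
  limg : Tendsto g atTop (𝓝 0)
  int : IntegrableOn g (Ioi 0)
  mass : ∫ t in Ioi (0:ℝ), max (|g t| - exp (-(c * t))) 0 ≤ 1 / c

/-- As long as `h` is nonnegative, `g` stays below `exp (-t)`. -/
lemma le_exp_neg {lam : ℝ} (hl : 0 ≤ lam) {h g : ℝ → ℝ} (g0 : g 0 = 1)
    (dg : ∀ t, HasDerivAt g (-g t - lam * h t) t) {T : ℝ}
    (hh : ∀ t ∈ Icc 0 T, 0 ≤ h t) {t : ℝ} (ht : t ∈ Icc 0 T) : g t ≤ exp (-t) := by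
  have hT : 0 ≤ T := ht.1.trans ht.2
  have hd : ∀ t, HasDerivAt (fun t => 1 - exp t * g t) (exp t * (lam * h t)) t := by
    intro t
    have h1 := ((Real.hasDerivAt_exp t).mul (dg t)).const_sub 1
    refine h1.congr_deriv ?_
    ring
  have hmono : MonotoneOn (fun t => 1 - exp t * g t) (Icc 0 T) := by
    refine monotoneOn_of_hasDerivWithinAt_nonneg (convex_Icc 0 T)
      (fun t _ => (hd t).continuousAt.continuousWithinAt)
      (fun t _ => (hd t).hasDerivWithinAt) ?_
    intro t ht
    rw [interior_Icc] at ht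
    have := hh t ⟨ht.1.le, ht.2.le⟩
    positivity
  have h2 := hmono (left_mem_Icc.mpr hT) ht ht.1
  simp only [g0, exp_zero, mul_one, sub_self] at h2
  have h3 : exp t * g t ≤ 1 := by linarith
  rw [exp_neg, ← one_div, le_div_iff₀ (exp_pos t), mul_comm]
  exact h3

/-- The mass bound when `h` is nonnegative for all times. -/
lemma mass_of_nonneg {lam : ℝ} (hl : 0 ≤ lam) {h g : ℝ → ℝ} (h0 : h 0 = 0) (g0 : g 0 = 1)
    (dh : ∀ t, HasDerivAt h (g t) t)
    (dg : ∀ t, HasDerivAt g (-g t - lam * h t) t)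
    (limh : Tendsto h atTop (𝓝 0)) (hint : IntegrableOn g (Ioi 0))
    (hh : ∀ t, 0 ≤ t → 0 ≤ h t) :
    ∫ t in Ioi (0:ℝ), max (|g t| - exp (-t)) 0 ≤ 1 := by
  have hle : ∀ t, 0 ≤ t → g t ≤ exp (-t) := fun t ht =>
    le_exp_neg hl g0 dg (T := t) (fun s hs => hh s hs.1) ⟨ht, le_rfl⟩
  have hI : ∫ t in Ioi (0:ℝ), g t = 0 := by
    have := integral_Ioi_of_hasDerivAt_of_tendsto' (a := 0) (f := h) (f' := g) (m := 0)
      (fun t _ => dh t) hint limh
    rw [this, h0, sub_zero]
  calc ∫ t in Ioi (0:ℝ), max (|g t| - exp (-t)) 0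
      ≤ ∫ t in Ioi (0:ℝ), (exp (-t) - g t) := by
        refine setIntegral_mono_on ?_ ((integrableOn_exp_neg_Ioi 0).sub hint) measurableSet_Ioi ?_
        · exact ((hint.abs.sub (integrableOn_exp_neg_Ioi 0)).pos_part)
        · intro t ht
          have h1 := hle t (le_of_lt ht)
          refine max_le ?_ (by linarith)
          rcases abs_cases (g t) with h2 | h2 <;> linarith [exp_pos (-t)]
    _ = 1 := by
        rw [integral_sub (integrableOn_exp_neg_Ioi 0) hint, hI, integral_exp_neg_Ioi_zero]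
        simp


/-- Overdamped case. -/
lemma ker_over {lam : ℝ} (hl : 0 < lam) (hl4 : lam < 1 / 4) : ∃ h g, Ker lam 1 h g := by
  obtain ⟨s, hs⟩ : ∃ s, s = √(1 - 4 * lam) := ⟨_, rfl⟩
  have hs0 : 0 < s := by rw [hs]; exact Real.sqrt_pos.mpr (by linarith)
  have hs2 : s ^ 2 = 1 - 4 * lam := by rw [hs]; exact Real.sq_sqrt (by linarith)
  have hs1 : s < 1 := by nlinarith
  obtain ⟨a, ha⟩ : ∃ a, a = (1 + s) / 2 := ⟨_, rfl⟩
  obtain ⟨b, hb⟩ : ∃ b, b = (1 - s) / 2 := ⟨_, rfl⟩
  have hab : a * b = lam := by rw [ha, hb]; linear_combination (-1/4) * hs2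
  have hapb : a + b = 1 := by rw [ha, hb]; ring
  have hamb : a - b = s := by rw [ha, hb]; ring
  have hb0 : 0 < b := by rw [hb]; linarith
  have ha0 : 0 < a := by rw [ha]; linarith
  have hexp : ∀ r : ℝ, ∀ t, HasDerivAt (fun t => exp (-(r * t))) (-(r * exp (-(r * t)))) t := by
    intro r t
    have h1 := (((hasDerivAt_id t).const_mul r).fun_neg).exp
    refine h1.congr_deriv ?_
    simp only [id]
    ring
  have hlim : ∀ r : ℝ, 0 < r → Tendsto (fun t => exp (-(r * t))) atTop (𝓝 0) := by
    intro r hr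
    exact tendsto_exp_neg_atTop_nhds_zero.comp (tendsto_id.const_mul_atTop hr)
  have hint : ∀ r : ℝ, 0 < r → IntegrableOn (fun t => exp (-(r * t))) (Ioi 0) := by
    intro r hr
    have := integrableOn_exp_mul_Ioi (a := -r) (by linarith) 0
    simpa [neg_mul] using this
  let h : ℝ → ℝ := fun t => (exp (-(b * t)) - exp (-(a * t))) / s
  let g : ℝ → ℝ := fun t => (a * exp (-(a * t)) - b * exp (-(b * t))) / s
  have h0 : h 0 = 0 := by simp [h]
  have g0 : g 0 = 1 := by
    simp only [g, mul_zero, neg_zero, exp_zero, mul_one, hamb]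
    exact div_self hs0.ne'
  have dh : ∀ t, HasDerivAt h (g t) t := by
    intro t
    refine (((hexp b t).sub (hexp a t)).div_const s).congr_deriv ?_
    simp only [g]
    ring
  have dg : ∀ t, HasDerivAt g (-g t - lam * h t) t := by
    intro t
    refine ((((hexp a t).const_mul a).sub ((hexp b t).const_mul b)).div_const s).congr_deriv ?_
    simp only [g, h]
    rw [← hab]
    have h1 : a = 1 - b := by linarith
    rw [h1]
    field_simp
    ring
  have limh : Tendsto h atTop (𝓝 0) := by
    have := ((hlim b hb0).sub (hlim a ha0)).div_const s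
    simpa using this
  have limg : Tendsto g atTop (𝓝 0) := by
    have := (((hlim a ha0).const_mul a).sub ((hlim b hb0).const_mul b)).div_const s
    simpa using this
  have hgint : IntegrableOn g (Ioi 0) := by
    exact (((hint a ha0).const_mul a).sub ((hint b hb0).const_mul b)).div_const s
  have hh : ∀ t, 0 ≤ t → 0 ≤ h t := by
    intro t ht
    refine div_nonneg ?_ hs0.le
    rw [sub_nonneg]
    refine exp_le_exp.mpr ?_
    have : b * t ≤ a * t := mul_le_mul_of_nonneg_right (by linarith) ht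
    linarith
  refine ⟨h, g, h0, g0, dh, ?_, limh, limg, hgint, ?_⟩
  · intro t
    simpa using dg t
  · have := mass_of_nonneg hl.le h0 g0 dh dg limh hgint hh
    simpa using this

/-- Critical case. -/
lemma ker_crit : ∃ h g, Ker (1 / 4) 1 h g := by
  have hexp : ∀ t, HasDerivAt (fun t => exp (-(t / 2))) (-(exp (-(t / 2)) / 2)) t := by
    intro t
    have h1 := (((hasDerivAt_id t).div_const 2).fun_neg).exp
    refine h1.congr_deriv ?_
    simp only [id]
    ring
  have hlim0 : Tendsto (fun t : ℝ => exp (-(t / 2))) atTop (𝓝 0) := by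
    exact tendsto_exp_neg_atTop_nhds_zero.comp (tendsto_id.atTop_div_const two_pos)
  have hlim1 : Tendsto (fun t : ℝ => t * exp (-(t / 2))) atTop (𝓝 0) := by
    have h1 := (tendsto_pow_mul_exp_neg_atTop_nhds_zero 1).comp
      (tendsto_id.atTop_div_const (two_pos : (0:ℝ) < 2))
    have h2 := h1.const_mul 2
    simp only [mul_zero] at h2
    refine h2.congr (fun t => ?_)
    simp only [Function.comp, id, pow_one]
    ring
  have hint0 : IntegrableOn (fun t => exp (-(t / 2))) (Ioi 0) := by
    have := integrableOn_exp_mul_Ioi (a := -(1/2)) (by norm_num) 0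
    refine this.congr_fun (fun t _ => ?_) measurableSet_Ioi
    simp only
    congr 1
    ring
  have hint1 : IntegrableOn (fun t => t * exp (-(t / 2))) (Ioi 0) := by
    have hd : ∀ t ∈ Ici (0:ℝ), HasDerivAt (fun t => -(2 * (t * exp (-(t / 2))) + 4 * exp (-(t / 2))))
        (t * exp (-(t / 2))) t := by
      intro t _
      refine ((((hasDerivAt_id t).mul (hexp t)).const_mul 2).add
        ((hexp t).const_mul 4)).neg.congr_deriv ?_
      simp only [id]
      ring
    refine integrableOn_Ioi_deriv_of_nonneg' hd ?_ (l := 0) ?_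
    · intro t ht
      have : (0:ℝ) < t := ht
      positivity
    · have := ((hlim1.const_mul 2).add (hlim0.const_mul 4)).neg
      simpa using this
  let h : ℝ → ℝ := fun t => t * exp (-(t / 2))
  let g : ℝ → ℝ := fun t => exp (-(t / 2)) - t * exp (-(t / 2)) / 2
  have h0 : h 0 = 0 := by simp [h]
  have g0 : g 0 = 1 := by simp [g]
  have dh : ∀ t, HasDerivAt h (g t) t := by
    intro t
    refine ((hasDerivAt_id t).mul (hexp t)).congr_deriv ?_
    simp only [g, id]
    ring
  have dg : ∀ t, HasDerivAt g (-g t - 1 / 4 * h t) t := by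
    intro t
    refine ((hexp t).sub (((hasDerivAt_id t).mul (hexp t)).div_const 2)).congr_deriv ?_
    simp only [g, h, id]
    ring
  have limg : Tendsto g atTop (𝓝 0) := by
    have := hlim0.sub (hlim1.div_const 2)
    simpa using this
  have hgint : IntegrableOn g (Ioi 0) := hint0.sub (hint1.div_const 2)
  have hh : ∀ t, 0 ≤ t → 0 ≤ h t := by
    intro t ht
    simp only [h]
    positivity
  refine ⟨h, g, h0, g0, dh, ?_, hlim1, limg, hgint, ?_⟩
  · intro t
    simpa using dg t
  · have := mass_of_nonneg (by norm_num) h0 g0 dh dg hlim1 hgint hh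
    simpa using this

end Pool.Agent.V1197.VB
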