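import Pool.Agent.V1197.VB.Duh

set_option autoImplicit false

/-!
# Lower bound: solutions for overdamped diagonal systems
-/

namespace Pool.Agent.V1197.VB

open Set MeasureTheory Filter Topology
open scoped ENNReal

/-- displacement kernel, overdamped -/
noncomputable def hO (a b t : ℝ) : ℝ := (Real.exp (-(b * t)) - Real.exp (-(a * t))) / (a - b)

/-- velocity kernel, overdamped -/
noncomputable def gO (a b t : ℝ) : ℝ :=
  (a * Real.exp (-(a * t)) - b * Real.exp (-(b * t))) / (a - b)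

lemma hasDerivAt_expr (r t : ℝ) :
    HasDerivAt (fun t => Real.exp (-(r * t))) (-(r * Real.exp (-(r * t)))) t := by
  have h1 := (((hasDerivAt_id t).const_mul r).fun_neg).exp
  refine h1.congr_deriv ?_
  simp only [id]
  ring

lemma hO_zero (a b : ℝ) : hO a b 0 = 0 := by simp [hO]

lemma gO_zero {a b : ℝ} (hab : b < a) : gO a b 0 = 1 := by
  simp only [gO, mul_zero, neg_zero, Real.exp_zero, mul_one]
  exact div_self (sub_pos.mpr hab).ne'

lemma hasDerivAt_hO (a b t : ℝ) : HasDerivAt (hO a b) (gO a b t) t := by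
  refine (((hasDerivAt_expr b t).sub (hasDerivAt_expr a t)).div_const (a - b)).congr_deriv ?_
  simp only [gO]
  ring

lemma hasDerivAt_gO (a b t : ℝ) :
    HasDerivAt (gO a b) (-((a + b) * gO a b t) - a * b * hO a b t) t := by
  refine ((((hasDerivAt_expr a t).const_mul a).sub ((hasDerivAt_expr b t).const_mul b)).div_const
    (a - b)).congr_deriv ?_
  simp only [gO, hO]
  ring

/-- First order filter of `F`. -/
noncomputable def filt (F : ℝ → ℝ) (r t : ℝ) : ℝ :=
  Real.exp (-(r * t)) * ∫ s in (0:ℝ)..t, Real.exp (r * s) * F s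

lemma locInt_mul_exp {F : ℝ → ℝ} (hF : Measurable F) (hF1 : ∀ s, |F s| ≤ 1) (r : ℝ) :
    LocallyIntegrable (fun s => Real.exp (r * s) * F s) volume := by
  have h1 : Continuous (fun s : ℝ => Real.exp (r * s)) := by fun_prop
  refine LocallyIntegrable.mono h1.locallyIntegrable
    ((h1.measurable.mul hF).aestronglyMeasurable) ?_
  refine Eventually.of_forall fun s => ?_
  rw [norm_mul]
  exact mul_le_of_le_one_right (norm_nonneg _) (hF1 s)

lemma ii_mul_exp {F : ℝ → ℝ} (hF : Measurable F) (hF1 : ∀ s, |F s| ≤ 1) (r a b : ℝ) :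
    IntervalIntegrable (fun s => Real.exp (r * s) * F s) volume a b :=
  intervalIntegrable_iff.mpr
    (((locInt_mul_exp hF hF1 r).integrableOn_isCompact isCompact_uIcc).mono_set uIoc_subset_uIcc)

lemma filt_ac {F : ℝ → ℝ} (hF : Measurable F) (hF1 : ∀ s, |F s| ≤ 1) (r T : ℝ) :
    AbsolutelyContinuousOnInterval (filt F r) 0 T := by
  have h1 : IntervalIntegrable (fun s => Real.exp (r * s) * F s) volume 0 T :=
    ii_mul_exp hF hF1 r 0 T
  have h2 := h1.absolutelyContinuousOnInterval_intervalIntegral (c := 0) left_mem_uIcc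
  have h3 : AbsolutelyContinuousOnInterval (fun t => Real.exp (-(r * t))) 0 T := by
    refine ContDiffOn.absolutelyContinuousOnInterval (ContDiff.contDiffOn ?_)
    fun_prop
  exact h3.fun_mul h2

lemma filt_cont {F : ℝ → ℝ} (hF : Measurable F) (hF1 : ∀ s, |F s| ≤ 1) (r : ℝ) :
    Continuous (filt F r) := by
  have h1 : ∀ a b, IntervalIntegrable (fun s => Real.exp (r * s) * F s) volume a b :=
    fun a b => ii_mul_exp hF hF1 r a b
  have h2 : Continuous (fun t => ∫ s in (0:ℝ)..t, Real.exp (r * s) * F s) :=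
    intervalIntegral.continuous_primitive h1 0
  unfold filt
  fun_prop

lemma filt_deriv {F : ℝ → ℝ} (hF : Measurable F) (hF1 : ∀ s, |F s| ≤ 1) (r : ℝ) :
    ∀ᵐ t, HasDerivAt (filt F r) (F t - r * filt F r t) t := by
  filter_upwards [_root_.LocallyIntegrable.ae_hasDerivAt_integral (locInt_mul_exp hF hF1 r)] with t ht
  refine ((hasDerivAt_expr r t).mul (ht 0)).congr_deriv ?_
  rw [filt]
  have h1 : Real.exp (-(r * t)) * (Real.exp (r * t) * F t) = F t := by
    rw [← mul_assoc, ← Real.exp_add, neg_add_cancel, Real.exp_zero, one_mul]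
  rw [h1]
  ring

/-- Scalar overdamped solutions for bounded measurable forcing. -/
lemma scalar_sol {F : ℝ → ℝ} (hF : Measurable F) (hF1 : ∀ s, |F s| ≤ 1) {a b : ℝ} (hab : b < a) :
    ∃ φ ψ : ℝ → ℝ, (∀ t, HasDerivAt φ (ψ t) t) ∧ Continuous ψ ∧
      (∀ T, AbsolutelyContinuousOnInterval ψ 0 T) ∧
      (∀ᵐ t, HasDerivAt ψ (F t - (a + b) * ψ t - a * b * φ t) t) ∧ φ 0 = 0 ∧ ψ 0 = 0 := by
  have hs : a - b ≠ 0 := (sub_pos.mpr hab).ne'
  obtain ⟨φ, hφ⟩ : ∃ φ : ℝ → ℝ, φ = fun t => (a - b)⁻¹ * (filt F b t - filt F a t) := ⟨_, rfl⟩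
  obtain ⟨ψ, hψ⟩ : ∃ ψ : ℝ → ℝ, ψ = fun t => (a - b)⁻¹ * (a * filt F a t - b * filt F b t) :=
    ⟨_, rfl⟩
  have ca := filt_cont hF hF1 a
  have cb := filt_cont hF hF1 b
  have cψ : Continuous ψ := by rw [hψ]; fun_prop
  have aφ : ∀ T, AbsolutelyContinuousOnInterval φ 0 T := by
    intro T
    rw [hφ]
    exact ((filt_ac hF hF1 b T).fun_sub (filt_ac hF hF1 a T)).const_mul _
  have aψ : ∀ T, AbsolutelyContinuousOnInterval ψ 0 T := by
    intro T
    rw [hψ]
    exact (((filt_ac hF hF1 a T).const_mul a).fun_sub ((filt_ac hF hF1 b T).const_mul b)).const_mul _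
  have dφ : ∀ᵐ t, HasDerivAt φ (ψ t) t := by
    filter_upwards [filt_deriv hF hF1 a, filt_deriv hF hF1 b] with t h1 h2
    rw [hφ, hψ]
    refine ((h2.fun_sub h1).const_mul ((a - b)⁻¹)).congr_deriv ?_
    ring
  have dψ : ∀ᵐ t, HasDerivAt ψ (F t - (a + b) * ψ t - a * b * φ t) t := by
    filter_upwards [filt_deriv hF hF1 a, filt_deriv hF hF1 b] with t h1 h2
    rw [hφ, hψ]
    refine (((h1.const_mul a).fun_sub (h2.const_mul b)).const_mul ((a - b)⁻¹)).congr_deriv ?_
    field_simp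
    ring
  have φ0 : φ 0 = 0 := by rw [hφ]; simp [filt]
  have ψ0 : ψ 0 = 0 := by rw [hψ]; simp [filt]
  have hφI : φ = fun t => ∫ s in (0:ℝ)..t, ψ s := by
    funext t
    have h1 := (aφ t).integral_deriv_eq_sub
    rw [φ0, sub_zero] at h1
    rw [← h1]
    refine intervalIntegral.integral_congr_ae ?_
    filter_upwards [dφ] with s hs _
    exact hs.deriv
  refine ⟨φ, ψ, ?_, cψ, aψ, dψ, φ0, ψ0⟩
  intro t
  have h1 := intervalIntegral.integral_hasDerivAt_right (cψ.intervalIntegrable 0 t)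
    (cψ.stronglyMeasurableAtFilter _ _) cψ.continuousAt
  rw [hφI]
  exact h1

end Pool.Agent.V1197.VB
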