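import Pool.Agent.V1197.VB.LowVec

set_option autoImplicit false

/-!
# Lower bound: the estimate
-/

namespace Pool.Agent.V1197.VB

open Set MeasureTheory Filter Topology
open scoped ENNReal

variable {d : ℕ}

lemma exp_neg_le_of {y η : ℝ} (hη : 0 < η) (h : 1 / η ≤ y) : Real.exp (-y) ≤ η := by
  have hy : 0 < y := lt_of_lt_of_le (by positivity) h
  have h1 : y ≤ Real.exp y := by linarith [Real.add_one_le_exp y]
  rw [Real.exp_neg, inv_le_comm₀ (Real.exp_pos _) hη, ← one_div]
  exact h.trans h1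

lemma hO_lower {b c η r : ℝ} (hη : 0 < η) (hb0 : 0 < b) (hb1 : b ≤ c / 4)
    (hr : 1 / (c * η) ≤ r) (h1 : b * r ≤ 2 * η) : (1 - 4 * η) / c ≤ hO (c - b) b r := by
  have hc : 0 < c := by linarith
  have hr0 : 0 < r := lt_of_lt_of_le (by positivity) hr
  have e1 : 1 - 2 * η ≤ Real.exp (-(b * r)) := by
    linarith [Real.one_sub_le_exp_neg (b * r)]
  have e2 : Real.exp (-((c - b) * r)) ≤ 2 * η := by
    refine exp_neg_le_of (by positivity) ?_
    have h3 : c * r ≥ 1 / η := by
      have := mul_le_mul_of_nonneg_left hr hc.le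
      calc c * r ≥ c * (1 / (c * η)) := this
        _ = 1 / η := by field_simp
    have h4 : 1 / (2 * η) = (1 / η) / 2 := by field_simp
    rw [h4]
    nlinarith
  have e3 : Real.exp (-((c - b) * r)) ≤ Real.exp (-(b * r)) := by
    refine Real.exp_le_exp.mpr ?_
    nlinarith
  rw [hO]
  calc (1 - 4 * η) / c ≤ (Real.exp (-(b * r)) - Real.exp (-((c - b) * r))) / c := by
        refine div_le_div_of_nonneg_right (by linarith) hc.le
    _ ≤ (Real.exp (-(b * r)) - Real.exp (-((c - b) * r))) / (c - b - b) := by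
        refine div_le_div_of_nonneg_left (by linarith) (by linarith) (by linarith)

lemma hO_upper {b c η r : ℝ} (hη : 0 < η) (hb0 : 0 < b) (hb1 : b ≤ c / 4)
    (h1 : 1 / η ≤ b * r) : hO (c - b) b r ≤ 2 * η / c := by
  have hc : 0 < c := by linarith
  have e1 := exp_neg_le_of hη h1
  have e2 := Real.exp_pos (-((c - b) * r))
  rw [hO]
  calc (Real.exp (-(b * r)) - Real.exp (-((c - b) * r))) / (c - b - b)
      ≤ η / (c - b - b) := by
        refine div_le_div_of_nonneg_right (by linarith) (by linarith)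
    _ ≤ η / (c / 2) := by
        refine div_le_div_of_nonneg_left hη.le (by linarith) (by linarith)
    _ = 2 * η / c := by field_simp

lemma integral_gO (a b p q : ℝ) : ∫ r in p..q, gO a b r = hO a b q - hO a b p :=
  intervalIntegral.integral_eq_sub_of_hasDerivAt (fun t _ => hasDerivAt_hO a b t)
    ((continuous_gO a b).intervalIntegrable _ _)

/-- absolute tail bound -/
lemma abs_tail {b c η T t : ℝ} (hη : 0 < η) (hb0 : 0 < b) (hb1 : b ≤ c / 4)
    (h1 : 1 / η ≤ b * T) (hT : 0 ≤ T) (ht : T ≤ t) :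
    ∫ r in T..t, |gO (c - b) b r| ≤ 4 * η / c := by
  have hc : 0 < c := by linarith
  have hs : 0 < c - b - b := by linarith
  have hle : ∀ r ∈ Icc T t, |gO (c - b) b r|
      ≤ ((c - b) * Real.exp (-((c - b) * r)) + b * Real.exp (-(b * r))) / (c - b - b) := by
    intro r _
    rw [gO, abs_div, abs_of_pos hs]
    refine div_le_div_of_nonneg_right ?_ hs.le
    refine (abs_sub _ _).trans (le_of_eq ?_)
    rw [abs_of_pos (mul_pos (by linarith) (Real.exp_pos _)),
      abs_of_pos (mul_pos hb0 (Real.exp_pos _))]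
  have hcont : Continuous fun r => ((c - b) * Real.exp (-((c - b) * r))
      + b * Real.exp (-(b * r))) / (c - b - b) := by fun_prop
  have hd : ∀ r, HasDerivAt (fun r => -((Real.exp (-((c - b) * r)) + Real.exp (-(b * r)))
      / (c - b - b))) (((c - b) * Real.exp (-((c - b) * r)) + b * Real.exp (-(b * r)))
      / (c - b - b)) r := by
    intro r
    refine (((hasDerivAt_expr (c - b) r).add (hasDerivAt_expr b r)).div_const _).fun_neg.congr_deriv ?_
    ring
  have h2 : ∫ r in T..t, ((c - b) * Real.exp (-((c - b) * r)) + b * Real.exp (-(b * r)))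
      / (c - b - b) = -((Real.exp (-((c - b) * t)) + Real.exp (-(b * t))) / (c - b - b))
        - -((Real.exp (-((c - b) * T)) + Real.exp (-(b * T))) / (c - b - b)) :=
    intervalIntegral.integral_eq_sub_of_hasDerivAt (fun r _ => hd r)
      (hcont.intervalIntegrable _ _)
  have h3 : ∫ r in T..t, |gO (c - b) b r| ≤ ∫ r in T..t, ((c - b) * Real.exp (-((c - b) * r))
      + b * Real.exp (-(b * r))) / (c - b - b) :=
    intervalIntegral.integral_mono_on ht ((continuous_gO _ _).abs.intervalIntegrable _ _)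
      (hcont.intervalIntegrable _ _) hle
  refine h3.trans ?_
  rw [h2]
  have e1 := exp_neg_le_of hη h1
  have e2 : Real.exp (-((c - b) * T)) ≤ Real.exp (-(b * T)) := by
    refine Real.exp_le_exp.mpr ?_
    nlinarith
  have e3 : 0 ≤ (Real.exp (-((c - b) * t)) + Real.exp (-(b * t))) / (c - b - b) := by positivity
  have e4 : (Real.exp (-((c - b) * T)) + Real.exp (-(b * T))) / (c - b - b)
      ≤ (2 * η) / (c / 2) := by
    refine div_le_div₀ (by positivity) (by linarith) (by linarith) (by linarith)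
  have e5 : (2 * η) / (c / 2) = 4 * η / c := by field_simp; ring
  linarith

lemma abs_apply_le_norm_Gx (a b x : Fin d → ℝ) (r : ℝ) (i : Fin d) :
    |x i * gO (a i) (b i) r| ≤ ‖Gx a b x r‖ := by
  have := PiLp.norm_apply_le (Gx a b x r) i
  simpa [Gx] using this

lemma norm_Gx_le_sum (a b x : Fin d → ℝ) (r : ℝ) :
    ‖Gx a b x r‖ ≤ ∑ i, |x i| * |gO (a i) (b i) r| := by
  rw [EuclideanSpace.norm_eq]
  have h0 : ∀ i ∈ (Finset.univ : Finset (Fin d)), 0 ≤ |x i| * |gO (a i) (b i) r| :=
    fun i _ => by positivity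
  refine Real.sqrt_le_iff.mpr ⟨Finset.sum_nonneg h0, ?_⟩
  refine le_trans (le_of_eq ?_) (Finset.sum_sq_le_sq_sum_of_nonneg h0)
  refine Finset.sum_congr rfl fun i _ => ?_
  simp only [Gx, Real.norm_eq_abs, abs_mul]

lemma lower_est (hd : 0 < d) {b : Fin d → ℝ} {c η : ℝ} (hη : 0 < η)
    (hb0 : ∀ i, 0 < b i) (hb1 : ∀ i, b i ≤ c / 4) {r : ℕ → ℝ} (hr : Monotone r)
    (hr0 : 1 / (c * η) ≤ r 0) (h1 : ∀ (i : Fin d) (j : ℕ), j ≤ i → b i * r j ≤ 2 * η)
    (h2 : ∀ (i : Fin d) (j : ℕ), (i:ℕ) + 1 ≤ j → 1 / η ≤ b i * r j) {K : ℝ}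
    (hK : VelBound (Matrix.diagonal fun i => (c - b i) * b i) c K) :
    1 + √d - 14 * √d * η ≤ c * K := by
  have hc : 0 < c := by linarith [hb0 ⟨0, hd⟩, hb1 ⟨0, hd⟩]
  have hd' : (0:ℝ) < d := by exact_mod_cast hd
  have hsd : 0 < √(d:ℝ) := Real.sqrt_pos.mpr hd'
  have hsd1 : 1 ≤ √(d:ℝ) := Real.one_le_sqrt.mpr (by exact_mod_cast hd)
  have hsq : √(d:ℝ) ^ 2 = d := Real.sq_sqrt hd'.le
  obtain ⟨x, hx⟩ : ∃ x : Fin d → ℝ, x = fun _ => 1 / √(d:ℝ) := ⟨_, rfl⟩
  have hxi : ∀ i, x i = 1 / √(d:ℝ) := fun i => by rw [hx]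
  have hx0 : ∀ i, 0 < x i := fun i => by rw [hxi]; positivity
  have hx1 : ∑ i, x i ^ 2 = 1 := by
    simp only [hxi, div_pow, one_pow, hsq, Finset.sum_const, Finset.card_univ, Fintype.card_fin,
      nsmul_eq_mul]
    field_simp
  have hr0' : 0 < r 0 := lt_of_lt_of_le (by positivity) hr0
  have hrn : ∀ n, r 0 ≤ r n := fun n => hr (Nat.zero_le n)
  have hT : 0 < r d := hr0'.trans_le (hrn d)
  obtain ⟨a, ha⟩ : ∃ a : Fin d → ℝ, a = fun i => c - b i := ⟨_, rfl⟩
  have hai : ∀ i, a i = c - b i := fun i => by rw [ha]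
  have hab : ∀ i, b i < a i := fun i => by rw [hai]; linarith [hb1 i, hb0 i]
  have hGc : Continuous fun r => ‖Gx a b x r‖ := (continuous_Gx a b x).norm
  -- tail
  have hR : ∀ t, r d ≤ t → ∫ s in (r d)..t, ‖Gx a b x s‖ ≤ 4 * √d * η / c := by
    intro t ht
    have hii : ∀ i ∈ (Finset.univ : Finset (Fin d)), IntervalIntegrable
        (fun s => |x i| * |gO (a i) (b i) s|) volume (r d) t := fun i _ =>
      ((continuous_const.mul (continuous_gO (a i) (b i)).abs)).intervalIntegrable _ _
    calc ∫ s in (r d)..t, ‖Gx a b x s‖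
        ≤ ∫ s in (r d)..t, ∑ i, |x i| * |gO (a i) (b i) s| := by
          refine intervalIntegral.integral_mono_on ht (hGc.intervalIntegrable _ _) ?_
            (fun s _ => norm_Gx_le_sum a b x s)
          exact (continuous_finsetSum _ fun i _ =>
            continuous_const.mul (continuous_gO (a i) (b i)).abs).intervalIntegrable _ _
      _ = ∑ i, |x i| * ∫ s in (r d)..t, |gO (a i) (b i) s| := by
          rw [intervalIntegral.integral_finsetSum hii]
          simp only [intervalIntegral.integral_const_mul]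
      _ ≤ ∑ _i : Fin d, (1 / √(d:ℝ)) * (4 * η / c) := by
          refine Finset.sum_le_sum fun i _ => ?_
          rw [abs_of_pos (hx0 i), hxi, hai]
          gcongr
          exact abs_tail hη (hb0 i) (hb1 i) (h2 i d (by omega)) hT.le ht
      _ = 4 * √d * η / c := by
          rw [Finset.sum_const, Finset.card_univ, Fintype.card_fin, nsmul_eq_mul]
          have : (d:ℝ) = √(d:ℝ) * √(d:ℝ) := by rw [← sq, hsq]
          nth_rewrite 1 [this]
          field_simp
  have hK' : VelBound (Matrix.diagonal fun i => a i * b i) c K := by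
    simpa only [hai] using hK
  have hcore := lower_core hab (fun i => by rw [hai]; ring) hK' hx1 hT hR
  -- splitting
  have hG : ∀ p q, IntervalIntegrable (fun s => ‖Gx a b x s‖) volume p q :=
    fun p q => hGc.intervalIntegrable _ _
  have hsplit : ∫ s in (0:ℝ)..(r d), ‖Gx a b x s‖
      = (∫ s in (0:ℝ)..(r 0), ‖Gx a b x s‖) + ∑ j : Fin d, ∫ s in (r j)..(r (j + 1)), ‖Gx a b x s‖ := by
    rw [← intervalIntegral.integral_add_adjacent_intervals (hG 0 (r 0)) (hG (r 0) (r d)),
      ← intervalIntegral.sum_integral_adjacent_intervals (fun k _ => hG (r k) (r (k + 1))),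
      Finset.sum_range]
  have hfirst : (1 - 4 * η) / c ≤ ∫ s in (0:ℝ)..(r 0), ‖Gx a b x s‖ := by
    have hii : ∀ i ∈ (Finset.univ : Finset (Fin d)), IntervalIntegrable
        (fun s => x i ^ 2 * gO (a i) (b i) s) volume 0 (r 0) := fun i _ =>
      (continuous_const.mul (continuous_gO (a i) (b i))).intervalIntegrable _ _
    have e1 : ∫ s in (0:ℝ)..(r 0), ∑ i, x i ^ 2 * gO (a i) (b i) s
        ≤ ∫ s in (0:ℝ)..(r 0), ‖Gx a b x s‖ := by
      refine intervalIntegral.integral_mono_on hr0'.le ?_ (hG _ _) ?_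
      · exact (continuous_finsetSum _ fun i _ =>
          continuous_const.mul (continuous_gO (a i) (b i))).intervalIntegrable _ _
      · intro s _
        have e2 : ∑ i, x i ^ 2 * gO (a i) (b i) s
            = inner ℝ (WithLp.toLp 2 x : Sp d) (Gx a b x s) := by
          rw [PiLp.inner_apply]
          refine Finset.sum_congr rfl fun i _ => ?_
          simp only [Gx, RCLike.inner_apply, conj_trivial]
          ring
        rw [e2]
        refine (real_inner_le_norm _ _).trans ?_
        have hxn : ‖(WithLp.toLp 2 x : Sp d)‖ = 1 := by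
          rw [EuclideanSpace.norm_eq]
          simp [hx1]
        rw [hxn, one_mul]
    refine le_trans ?_ e1
    rw [intervalIntegral.integral_finsetSum hii]
    have e3 : (1 - 4 * η) / c = ∑ i, x i ^ 2 * ((1 - 4 * η) / c) := by
      rw [← Finset.sum_mul, hx1, one_mul]
    rw [e3]
    refine Finset.sum_le_sum fun i _ => ?_
    rw [intervalIntegral.integral_const_mul, integral_gO, hO_zero, sub_zero, hai]
    exact mul_le_mul_of_nonneg_left
      (hO_lower hη (hb0 i) (hb1 i) hr0 (h1 i 0 (Nat.zero_le _))) (sq_nonneg _)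
  have hwin : √d * ((1 - 6 * η) / c) ≤ ∑ j : Fin d, ∫ s in (r j)..(r (j + 1)), ‖Gx a b x s‖ := by
    have e1 : ∀ j : Fin d, (1 / √(d:ℝ)) * ((1 - 6 * η) / c)
        ≤ ∫ s in (r j)..(r (j + 1)), ‖Gx a b x s‖ := by
      intro j
      have e2 : ∫ s in (r j)..(r (j + 1)), -(x j * gO (a j) (b j) s)
          ≤ ∫ s in (r j)..(r (j + 1)), ‖Gx a b x s‖ := by
        refine intervalIntegral.integral_mono_on (hr (Nat.le_succ _)) ?_ (hG _ _) ?_
        · exact ((continuous_const.mul (continuous_gO (a j) (b j))).neg).intervalIntegrable _ _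
        · intro s _
          exact (neg_le_abs _).trans (abs_apply_le_norm_Gx a b x s j)
      refine le_trans ?_ e2
      rw [intervalIntegral.integral_neg, intervalIntegral.integral_const_mul, integral_gO, hai,
        ← hxi j, ← mul_neg]
      refine mul_le_mul_of_nonneg_left ?_ (hx0 j).le
      have e3 := hO_lower hη (hb0 j) (hb1 j) (hr0.trans (hrn j)) (h1 j j le_rfl)
      have e4 := hO_upper hη (hb0 j) (hb1 j) (h2 j (j + 1) le_rfl)
      have e5 : (1 - 6 * η) / c = (1 - 4 * η) / c - 2 * η / c := by ring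
      rw [e5]
      linarith
    calc √d * ((1 - 6 * η) / c) = ∑ _j : Fin d, (1 / √(d:ℝ)) * ((1 - 6 * η) / c) := by
          rw [Finset.sum_const, Finset.card_univ, Fintype.card_fin, nsmul_eq_mul]
          have : (d:ℝ) = √(d:ℝ) * √(d:ℝ) := by rw [← sq, hsq]
          nth_rewrite 2 [this]
          field_simp
      _ ≤ _ := Finset.sum_le_sum fun j _ => e1 j
  rw [hsplit] at hcore
  have h3 : (1 - 4 * η) / c + √d * ((1 - 6 * η) / c) - 4 * √d * η / c ≤ K := by linarith
  have h4 : (1 - 4 * η) / c + √d * ((1 - 6 * η) / c) - 4 * √d * η / c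
      = (1 + √d - 4 * η - 10 * √d * η) / c := by ring
  rw [h4, div_le_iff₀ hc] at h3
  nlinarith

end Pool.Agent.V1197.VB
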