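import Pool.Agent.V1197.VB.Up

set_option autoImplicit false

/-!
# The upper bound `K(A, c) ≤ (1 + √d) / c`: conclusion
-/

namespace Pool.Agent.V1197.VB

open Set MeasureTheory Filter Topology
open scoped ENNReal

variable {d : ℕ}

lemma eigen_inner {A : Matrix (Fin d) (Fin d) ℝ} (hA : A.IsHermitian) (i : Fin d) (y : Sp d) :
    inner ℝ (hA.eigenvectorBasis i) (Matrix.toEuclideanLin A y)
      = hA.eigenvalues i * inner ℝ (hA.eigenvectorBasis i) y := by
  have h1 : (Matrix.toEuclideanLin A).IsSymmetric := Matrix.isSymmetric_toEuclideanLin_iff.mpr hA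
  have h2 : Matrix.toEuclideanLin A (hA.eigenvectorBasis i)
      = hA.eigenvalues i • hA.eigenvectorBasis i := by
    ext j
    have := congrFun (hA.mulVec_eigenvectorBasis i) j
    simpa using this
  rw [← h1, h2, inner_smul_left]
  simp

theorem velBound_upper {A : Matrix (Fin d) (Fin d) ℝ} (hA : A.PosDef) {c : ℝ} (hc : 0 < c) :
    VelBound A c ((1 + √d) / c) := by
  have hK : 0 < (1 + √d) / c := by positivity
  refine ⟨hK.le, fun f u v hf hs => ?_⟩
  have hk : ∀ i, ∃ hg : (ℝ → ℝ) × (ℝ → ℝ), Ker (hA.isHermitian.eigenvalues i) c hg.1 hg.2 := by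
    intro i
    obtain ⟨h, g, k⟩ := ker_exists (hA.eigenvalues_pos i) hc
    exact ⟨(h, g), k⟩
  choose hg k using hk
  by_contra hlt
  rw [not_le] at hlt
  obtain ⟨r, hr1, hr2⟩ := ENNReal.lt_iff_exists_nnreal_btwn.mp hlt
  obtain ⟨L, hL⟩ : ∃ L, L = (essLimsup f).toReal := ⟨_, rfl⟩
  have hL0 : 0 ≤ L := by rw [hL]; exact ENNReal.toReal_nonneg
  have hE : essLimsup f = ENNReal.ofReal L := by rw [hL, ENNReal.ofReal_toReal hf.2.ne]
  have h1 : L < r / ((1 + √d) / c) := by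
    rw [hE, ← ENNReal.ofReal_mul hK.le, ← ENNReal.ofReal_coe_nnreal,
      ENNReal.ofReal_lt_ofReal_iff_of_nonneg (by positivity)] at hr1
    rw [lt_div_iff₀ hK]
    linarith
  obtain ⟨N, hN1, hN2⟩ := exists_between h1
  rw [lt_div_iff₀ hK] at hN2
  have hN0 : 0 < N := hL0.trans_lt hN1
  have h2 : essLimsup f < ENNReal.ofReal N := by
    rw [hE]
    exact (ENNReal.ofReal_lt_ofReal_iff hN0).mpr hN1
  have h3 := eventually_lt_of_limsup_lt h2
  rw [Filter.Eventually, mem_inf_iff_superset] at h3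
  obtain ⟨s₁, hs₁, s₂, hs₂, h4⟩ := h3
  obtain ⟨a, ha⟩ := mem_atTop_sets.mp hs₁
  obtain ⟨T₁, hT₁⟩ : ∃ T₁, T₁ = max a 0 := ⟨_, rfl⟩
  have hT0 : 0 ≤ T₁ := by rw [hT₁]; exact le_max_right _ _
  have hfN : ∀ᵐ s, T₁ ≤ s → ‖f s‖ ≤ N := by
    filter_upwards [hs₂] with s hs hs'
    have h5 : ‖f s‖ₑ < ENNReal.ofReal N :=
      h4 ⟨ha s ((le_max_left _ _).trans (hT₁ ▸ hs')), hs⟩
    rw [← ofReal_norm, ENNReal.ofReal_lt_ofReal_iff hN0] at h5
    exact h5.le
  have hmain : ∀ t, T₁ ≤ t → ‖v t‖ ≤ (∑ i, (|(hg i).2 (t - T₁)|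
      * |inner ℝ (hA.isHermitian.eigenvectorBasis i) (v T₁)|
      + |hA.isHermitian.eigenvalues i * (hg i).1 (t - T₁)|
        * |inner ℝ (hA.isHermitian.eigenvectorBasis i) (u T₁)|)) + (1 + √d) / c * N := by
    intro t ht
    exact vel_bound (lam := hA.isHermitian.eigenvalues) (b := hA.isHermitian.eigenvectorBasis)
      (h := fun i => (hg i).1) (g := fun i => (hg i).2)
      hc hs (fun i y => eigen_inner hA.isHermitian i y) k hf.1 hT0 ht hN0.le hfN
  have hshift : Tendsto (fun t : ℝ => t - T₁) atTop atTop :=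
    tendsto_atTop_add_const_right _ _ tendsto_id
  have hlim : Tendsto (fun t => ∑ i, (|(hg i).2 (t - T₁)|
      * |inner ℝ (hA.isHermitian.eigenvectorBasis i) (v T₁)|
      + |hA.isHermitian.eigenvalues i * (hg i).1 (t - T₁)|
        * |inner ℝ (hA.isHermitian.eigenvectorBasis i) (u T₁)|)) atTop (𝓝 0) := by
    have h5 : ∀ i ∈ (Finset.univ : Finset (Fin d)), Tendsto (fun t => |(hg i).2 (t - T₁)|
      * |inner ℝ (hA.isHermitian.eigenvectorBasis i) (v T₁)|
      + |hA.isHermitian.eigenvalues i * (hg i).1 (t - T₁)|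
        * |inner ℝ (hA.isHermitian.eigenvectorBasis i) (u T₁)|) atTop (𝓝 0) := by
      intro i _
      have e1 := ((k i).limg.comp hshift).abs.mul_const
        (|inner ℝ (hA.isHermitian.eigenvectorBasis i) (v T₁)|)
      have e2 := (((k i).limh.comp hshift).const_mul (hA.isHermitian.eigenvalues i)).abs.mul_const
        (|inner ℝ (hA.isHermitian.eigenvectorBasis i) (u T₁)|)
      have e3 := e1.add e2
      simpa using e3
    have h6 := tendsto_finsetSum _ h5
    simpa using h6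
  have hev : ∀ᶠ t in atTop, ‖v t‖ₑ ≤ (r : ℝ≥0∞) := by
    have h7 : (0:ℝ) < r - (1 + √d) / c * N := by linarith
    filter_upwards [hlim.eventually_lt_const h7, eventually_ge_atTop T₁] with t ht ht'
    have h8 := hmain t ht'
    rw [← ofReal_norm, ← ENNReal.ofReal_coe_nnreal]
    exact ENNReal.ofReal_le_ofReal (by linarith)
  have h9 : limsup (fun t => ‖v t‖ₑ) atTop ≤ (r : ℝ≥0∞) := limsup_le_of_le (by isBoundedDefault) hev
  exact absurd hr2 (not_lt.mpr h9)

/-- The infimum defining `velConst` is attained. -/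
theorem isLeast_velConst {A : Matrix (Fin d) (Fin d) ℝ} (hA : A.PosDef) {c : ℝ} (hc : 0 < c) :
    IsLeast {K | VelBound A c K} (velConst A c) := by
  have hne : {K | VelBound A c K}.Nonempty := ⟨_, velBound_upper hA hc⟩
  have hbd : BddBelow {K | VelBound A c K} := ⟨0, fun K hK => hK.1⟩
  have h0 : 0 ≤ velConst A c := Real.sInf_nonneg fun K hK => hK.1
  refine ⟨⟨h0, fun f u v hf hs => ?_⟩, fun K hK => csInf_le hbd hK⟩
  obtain ⟨L, hL⟩ : ∃ L, L = (essLimsup f).toReal := ⟨_, rfl⟩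
  have hL0 : 0 ≤ L := by rw [hL]; exact ENNReal.toReal_nonneg
  have hE : essLimsup f = ENNReal.ofReal L := by rw [hL, ENNReal.ofReal_toReal hf.2.ne]
  have h1 : ∀ ε > 0, limsup (fun t => ‖v t‖ₑ) atTop ≤ ENNReal.ofReal ((velConst A c + ε) * L) := by
    intro ε hε
    obtain ⟨K, hK, hKε⟩ := exists_lt_of_csInf_lt hne (lt_add_of_pos_right (velConst A c) hε)
    refine (hK.2 f u v hf hs).trans ?_
    rw [hE, ← ENNReal.ofReal_mul hK.1]
    exact ENNReal.ofReal_le_ofReal (mul_le_mul_of_nonneg_right hKε.le hL0)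
  rw [hE, ← ENNReal.ofReal_mul h0]
  have h2 : Tendsto (fun ε : ℝ => ENNReal.ofReal ((velConst A c + ε) * L)) (𝓝[>] 0)
      (𝓝 (ENNReal.ofReal (velConst A c * L))) := by
    have h3 : Continuous (fun ε : ℝ => ENNReal.ofReal ((velConst A c + ε) * L)) :=
      ENNReal.continuous_ofReal.comp (by fun_prop)
    have h4 := h3.tendsto 0
    rw [add_zero] at h4
    exact h4.mono_left nhdsWithin_le_nhds
  exact ge_of_tendsto h2 (eventually_mem_nhdsWithin.mono fun ε hε => h1 ε hε)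

end Pool.Agent.V1197.VB
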