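import Pool.Agent.V1197.VB.LowEst
import Pool.Agent.V1197.VB.UpMain

set_option autoImplicit false

/-!
# Lower bound: conclusion
-/

namespace Pool.Agent.V1197.VB

open Set MeasureTheory Filter Topology
open scoped ENNReal

variable {d : ℕ}

/-- the matrices used for the lower bound -/
noncomputable def testMat (d : ℕ) (μ η : ℝ) : Matrix (Fin d) (Fin d) ℝ :=
  Matrix.diagonal fun i => μ * η ^ (2 * ((i:ℕ) + 1))

lemma testMat_posDef {μ η : ℝ} (hμ : 0 < μ) (hη : 0 < η) : (testMat d μ η).PosDef :=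
  Matrix.PosDef.diagonal fun i => by positivity

lemma testMat_bound (hd : 0 < d) {μ η c : ℝ} (hμ : 0 < μ) (hη : 0 < η) (hη4 : η ≤ 1 / 4)
    (hc : 0 < c) (hμc : μ ≤ c ^ 2) : 1 + √d - 14 * √d * η ≤ c * velConst (testMat d μ η) c := by
  have hK := (isLeast_velConst (testMat_posDef (d := d) hμ hη) hc).1
  obtain ⟨lam, hlam⟩ : ∃ lam : Fin d → ℝ, lam = fun i : Fin d => μ * η ^ (2 * ((i:ℕ) + 1)) :=
    ⟨_, rfl⟩
  have hli : ∀ i : Fin d, lam i = μ * η ^ (2 * ((i:ℕ) + 1)) := fun i => by rw [hlam]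
  have hη1 : η ≤ 1 := by linarith
  have hl0 : ∀ i, 0 < lam i := fun i => by rw [hli]; positivity
  have hl1 : ∀ i, lam i ≤ c ^ 2 / 16 := by
    intro i
    rw [hli]
    have h1 : η ^ (2 * ((i:ℕ) + 1)) ≤ η ^ 2 := pow_le_pow_of_le_one hη.le hη1 (by omega)
    have h2 : η ^ 2 ≤ 1 / 16 := by nlinarith
    calc μ * η ^ (2 * ((i:ℕ) + 1)) ≤ c ^ 2 * (1 / 16) :=
          mul_le_mul hμc (h1.trans h2) (by positivity) (by positivity)
      _ = c ^ 2 / 16 := by ring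
  obtain ⟨b, hb⟩ : ∃ b : Fin d → ℝ, b = fun i => (c - √(c ^ 2 - 4 * lam i)) / 2 := ⟨_, rfl⟩
  have hbi : ∀ i, b i = (c - √(c ^ 2 - 4 * lam i)) / 2 := fun i => by rw [hb]
  have hsq : ∀ i, √(c ^ 2 - 4 * lam i) ^ 2 = c ^ 2 - 4 * lam i := fun i =>
    Real.sq_sqrt (by nlinarith [hl1 i])
  have hs0 : ∀ i, 0 ≤ √(c ^ 2 - 4 * lam i) := fun i => Real.sqrt_nonneg _
  have hs1 : ∀ i, √(c ^ 2 - 4 * lam i) < c := by
    intro i
    have := hsq i
    nlinarith [hl0 i, hs0 i]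
  have hs2 : ∀ i, c / 2 ≤ √(c ^ 2 - 4 * lam i) := by
    intro i
    refine Real.le_sqrt_of_sq_le ?_
    nlinarith [hl1 i]
  have hprod : ∀ i, (c - b i) * b i = lam i := by
    intro i
    rw [hbi]
    linear_combination (-1/4) * hsq i
  have hb0 : ∀ i, 0 < b i := fun i => by rw [hbi]; linarith [hs1 i]
  have hb1 : ∀ i, b i ≤ c / 4 := fun i => by rw [hbi]; linarith [hs2 i]
  have hbu : ∀ i, b i ≤ 2 * lam i / c := by
    intro i
    rw [le_div_iff₀ hc, ← hprod i]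
    nlinarith [hb0 i, hb1 i]
  have hbl : ∀ i, lam i / c ≤ b i := by
    intro i
    rw [div_le_iff₀ hc, ← hprod i]
    nlinarith [hb0 i, hb1 i]
  obtain ⟨r, hr⟩ : ∃ r : ℕ → ℝ, r = fun j => (c / μ) * (1 / η) ^ (2 * j + 1) := ⟨_, rfl⟩
  have hri : ∀ j, r j = (c / μ) * (1 / η) ^ (2 * j + 1) := fun j => by rw [hr]
  have hη' : 1 ≤ 1 / η := by rw [le_div_iff₀ hη]; linarith
  have hr0 : ∀ j, 0 < r j := fun j => by rw [hri]; positivity
  -- products
  have hpl : ∀ (i : Fin d) (j : ℕ), lam i / c * r j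
      = η ^ (2 * ((i:ℕ) + 1)) * (1 / η) ^ (2 * j + 1) := by
    intro i j
    rw [hli, hri]
    field_simp
  refine lower_est hd hη hb0 hb1 (r := r) ?_ ?_ ?_ ?_ ?_
  · refine monotone_nat_of_le_succ fun n => ?_
    rw [hri, hri]
    refine mul_le_mul_of_nonneg_left ?_ (by positivity)
    exact pow_le_pow_right₀ hη' (by omega)
  · rw [hri]
    simp only [mul_zero, zero_add, pow_one]
    rw [div_mul_div_comm, mul_one, div_le_div_iff₀ (by positivity) (by positivity)]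
    nlinarith
  · intro i j hj
    have h1 : b i * r j ≤ 2 * (lam i / c * r j) := by
      calc b i * r j ≤ 2 * lam i / c * r j := mul_le_mul_of_nonneg_right (hbu i) (hr0 j).le
        _ = 2 * (lam i / c * r j) := by ring
    refine h1.trans ?_
    rw [hpl]
    have h2 : η ^ (2 * ((i:ℕ) + 1)) * (1 / η) ^ (2 * j + 1) = η ^ (2 * ((i:ℕ) - j) + 1) := by
      rw [one_div, inv_pow, ← div_eq_mul_inv, div_eq_iff (by positivity), ← pow_add]
      congr 1
      omega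
    rw [h2]
    have h3 : η ^ (2 * ((i:ℕ) - j) + 1) ≤ η ^ 1 := pow_le_pow_of_le_one hη.le hη1 (by omega)
    rw [pow_one] at h3
    linarith
  · intro i j hj
    have h1 : lam i / c * r j ≤ b i * r j := mul_le_mul_of_nonneg_right (hbl i) (hr0 j).le
    refine le_trans ?_ h1
    rw [hpl]
    have h2 : η ^ (2 * ((i:ℕ) + 1)) * (1 / η) ^ (2 * j + 1)
        = (1 / η) ^ (2 * (j - ((i:ℕ) + 1)) + 1) := by
      have h3 : (1 / η) ^ (2 * j + 1) = (1 / η) ^ (2 * (j - ((i:ℕ) + 1)) + 1)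
          * (1 / η) ^ (2 * ((i:ℕ) + 1)) := by
        rw [← pow_add]
        congr 1
        omega
      have h4 : η ^ (2 * ((i:ℕ) + 1)) * (1 / η) ^ (2 * ((i:ℕ) + 1)) = 1 := by
        rw [← mul_pow, mul_one_div_cancel hη.ne', one_pow]
      rw [h3]
      calc η ^ (2 * ((i:ℕ) + 1)) * ((1 / η) ^ (2 * (j - ((i:ℕ) + 1)) + 1)
            * (1 / η) ^ (2 * ((i:ℕ) + 1)))
          = (η ^ (2 * ((i:ℕ) + 1)) * (1 / η) ^ (2 * ((i:ℕ) + 1)))
            * (1 / η) ^ (2 * (j - ((i:ℕ) + 1)) + 1) := by ring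
        _ = _ := by rw [h4, one_mul]
    rw [h2]
    calc 1 / η = (1 / η) ^ 1 := (pow_one _).symm
      _ ≤ _ := pow_le_pow_right₀ hη' (by omega)
  · have h1 : (fun i => (c - b i) * b i) = fun i : Fin d => μ * η ^ (2 * ((i:ℕ) + 1)) := by
      funext i
      rw [hprod, hli]
    rw [h1]
    exact hK

end Pool.Agent.V1197.VB
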