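import Pool.Agent.V1197.VB.Low

set_option autoImplicit false

/-!
# Lower bound: periodic forcing
-/

namespace Pool.Agent.V1197.VB

open Set MeasureTheory Filter Topology
open scoped ENNReal

variable {d : ℕ}

lemma ac_sum {ι : Type*} (S : Finset ι) {φ : ι → ℝ → Sp d} {a b : ℝ}
    (h : ∀ i ∈ S, AbsolutelyContinuousOnInterval (φ i) a b) :
    AbsolutelyContinuousOnInterval (fun t => ∑ i ∈ S, φ i t) a b := by
  classical
  induction S using Finset.induction_on with
  | empty =>
    simp only [Finset.sum_empty]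
    exact (LipschitzWith.const (0 : Sp d)).lipschitzOnWith.absolutelyContinuousOnInterval
  | insert i S hi ih =>
    simp only [Finset.sum_insert hi]
    exact (h i (Finset.mem_insert_self i S)).fun_add
      (ih fun j hj => h j (Finset.mem_insert_of_mem hj))

lemma ac_smul_const {φ : ℝ → ℝ} {a b : ℝ} (h : AbsolutelyContinuousOnInterval φ a b) (x : Sp d) :
    AbsolutelyContinuousOnInterval (fun t => φ t • x) a b :=
  h.fun_smul ((LipschitzWith.const x).lipschitzOnWith.absolutelyContinuousOnInterval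
    (f := fun _ => x))

lemma sum_single_apply (φ : Fin d → ℝ) (i : Fin d) :
    (∑ j, φ j • EuclideanSpace.single j (1:ℝ)) i = φ i := by
  simp [Pi.single_apply]

/-- Solutions of overdamped diagonal systems with bounded measurable forcing. -/
lemma exists_sol {a b : Fin d → ℝ} {c : ℝ} (hab : ∀ i, b i < a i) (hc : ∀ i, a i + b i = c)
    {f : ℝ → Sp d} (hf : Measurable f) (hf1 : ∀ s, ‖f s‖ ≤ 1) :
    ∃ u v : ℝ → Sp d, IsSol (Matrix.diagonal fun i => a i * b i) c f u v ∧
      ∀ t, 0 ≤ t → ∀ i, v t i = ∫ s in (0:ℝ)..t, gO (a i) (b i) (t - s) * f s i := by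
  have hfm : ∀ i, Measurable (fun s => f s i) := by
    intro i
    exact (EuclideanSpace.proj i : Sp d →L[ℝ] ℝ).continuous.measurable.comp hf
  have hfi : ∀ i s, |f s i| ≤ 1 := fun i s => (PiLp.norm_apply_le (f s) i).trans (hf1 s)
  have hex := fun i => scalar_sol (hfm i) (hfi i) (hab i)
  choose φ ψ dφ cψ aψ dψ φ0 ψ0 using hex
  refine ⟨fun t => ∑ i, φ i t • EuclideanSpace.single i (1:ℝ),
    fun t => ∑ i, ψ i t • EuclideanSpace.single i (1:ℝ), ⟨?_, ?_, ?_, ?_⟩, ?_⟩
  · intro t _
    exact (HasDerivAt.fun_sum fun i _ => (dφ i t).smul_const _).hasDerivWithinAt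
  · refine Continuous.continuousOn (continuous_finsetSum _ fun i _ => ?_)
    have := cψ i
    fun_prop
  · intro T _
    exact ac_sum _ fun i _ => ac_smul_const (aψ i T) _
  · refine ae_restrict_of_ae ?_
    filter_upwards [ae_all_iff.mpr dψ] with t ht
    refine ⟨∑ i, (f t i - (a i + b i) * ψ i t - a i * b i * φ i t) •
      EuclideanSpace.single i (1:ℝ), HasDerivAt.fun_sum fun i _ => (ht i).smul_const _, ?_⟩
    ext i
    simp only [PiLp.add_apply, PiLp.smul_apply, sum_single_apply, Matrix.toLpLin_apply,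
      Matrix.mulVec_diagonal, smul_eq_mul, hc]
    ring
  · intro t ht i
    rw [sum_single_apply]
    have h1 := duhamel (lam := a i * b i) (c := a i + b i) (hO_zero (a i) (b i))
      (gO_zero (hab i)) (hasDerivAt_hO (a i) (b i)) (hasDerivAt_gO (a i) (b i))
      (φ := φ i) (ψ := ψ i) (F := fun s => f s i) (fun t _ => (dφ i t).hasDerivWithinAt)
      (fun T _ => aψ i T) ?_ le_rfl ht
    · rw [h1, φ0, ψ0]
      ring
    · refine ae_restrict_of_ae ?_
      filter_upwards [dψ i] with s hs
      exact ⟨_, hs, by ring⟩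

/-- The impulse response in direction `x`. -/
noncomputable def Gx (a b x : Fin d → ℝ) (r : ℝ) : Sp d :=
  WithLp.toLp 2 fun i => x i * gO (a i) (b i) r

lemma continuous_gO (a b : ℝ) : Continuous (gO a b) := by
  unfold gO
  fun_prop

lemma continuous_Gx (a b x : Fin d → ℝ) : Continuous (Gx a b x) := by
  unfold Gx
  refine (PiLp.continuous_toLp 2 _).comp (continuous_pi fun i => ?_)
  have := continuous_gO (a i) (b i)
  fun_prop

/-- The normalised direction. -/
noncomputable def Nx (a b x : Fin d → ℝ) (r : ℝ) : Sp d := ‖Gx a b x r‖⁻¹ • Gx a b x r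

lemma norm_Nx_le (a b x : Fin d → ℝ) (r : ℝ) : ‖Nx a b x r‖ ≤ 1 := by
  rw [Nx, norm_smul, norm_inv, norm_norm]
  exact inv_mul_le_one

lemma inner_Gx_Nx (a b x : Fin d → ℝ) (r : ℝ) : inner ℝ (Gx a b x r) (Nx a b x r) = ‖Gx a b x r‖ := by
  rw [Nx, inner_smul_right, real_inner_self_eq_norm_sq]
  rcases eq_or_ne ‖Gx a b x r‖ 0 with h | h
  · rw [h]; simp
  · field_simp

/-- The periodic forcing. -/
noncomputable def Fx (a b x : Fin d → ℝ) (T s : ℝ) : Sp d := Nx a b x (T * (1 - Int.fract (s / T)))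

lemma measurable_Fx (a b x : Fin d → ℝ) (T : ℝ) : Measurable (Fx a b x T) := by
  have h1 : Measurable (Nx a b x) := by
    have := (continuous_Gx a b x).measurable
    unfold Nx
    exact this.norm.inv.smul this
  have h2 : Measurable (fun s : ℝ => T * (1 - Int.fract (s / T))) := by
    have : Measurable (fun s : ℝ => Int.fract (s / T)) :=
      measurable_fract.comp (measurable_id.div_const T)
    exact (measurable_const.sub this).const_mul T
  exact h1.comp h2

lemma inner_formula {a b x : Fin d → ℝ} {f v : ℝ → Sp d} (hf : Measurable f)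
    (hf1 : ∀ s, ‖f s‖ ≤ 1)
    {t : ℝ} (hv : ∀ i, v t i = ∫ s in (0:ℝ)..t, gO (a i) (b i) (t - s) * f s i) :
    inner ℝ (WithLp.toLp 2 x : Sp d) (v t) = ∫ s in (0:ℝ)..t, inner ℝ (Gx a b x (t - s)) (f s) := by
  have hfm : ∀ i, Measurable (fun s => f s i) := by
    intro i
    exact (EuclideanSpace.proj i : Sp d →L[ℝ] ℝ).continuous.measurable.comp hf
  have hfi : ∀ i s, |f s i| ≤ 1 := fun i s => (PiLp.norm_apply_le (f s) i).trans (hf1 s)
  have hfI : ∀ i, IntervalIntegrable (fun s => f s i) volume 0 t := by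
    intro i
    refine (intervalIntegrable_const (c := (1:ℝ))).mono_fun (hfm i).aestronglyMeasurable ?_
    refine Eventually.of_forall fun s => ?_
    simpa using hfi i s
  have hi : ∀ i, IntervalIntegrable (fun s => x i * (gO (a i) (b i) (t - s) * f s i)) volume 0 t := by
    intro i
    have hg : Continuous (fun s => gO (a i) (b i) (t - s)) :=
      (continuous_gO (a i) (b i)).comp (by fun_prop)
    exact ((hfI i).continuousOn_mul hg.continuousOn).const_mul _
  have h1 : ∀ s, inner ℝ (Gx a b x (t - s)) (f s)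
      = ∑ i, x i * (gO (a i) (b i) (t - s) * f s i) := by
    intro s
    rw [PiLp.inner_apply]
    refine Finset.sum_congr rfl fun i _ => ?_
    simp only [Gx, RCLike.inner_apply, conj_trivial]
    ring
  rw [PiLp.inner_apply]
  simp only [h1]
  rw [intervalIntegral.integral_finsetSum (fun i _ => hi i)]
  refine Finset.sum_congr rfl fun i _ => ?_
  rw [intervalIntegral.integral_const_mul, ← hv i]
  simp [mul_comm]


/-- The lower bound for admissible constants in terms of the impulse response. -/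
lemma lower_core {a b : Fin d → ℝ} {c : ℝ} (hab : ∀ i, b i < a i) (hc : ∀ i, a i + b i = c)
    {K : ℝ} (hK : VelBound (Matrix.diagonal fun i => a i * b i) c K) {x : Fin d → ℝ}
    (hx : ∑ i, x i ^ 2 = 1) {T R : ℝ} (hT : 0 < T)
    (hR : ∀ t, T ≤ t → ∫ r in T..t, ‖Gx a b x r‖ ≤ R) :
    (∫ r in (0:ℝ)..T, ‖Gx a b x r‖) - R ≤ K := by
  obtain ⟨f, hf⟩ : ∃ f, f = Fx a b x T := ⟨_, rfl⟩
  have hfm : Measurable f := by rw [hf]; exact measurable_Fx a b x T
  have hf1 : ∀ s, ‖f s‖ ≤ 1 := by intro s; rw [hf]; exact norm_Nx_le _ _ _ _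
  obtain ⟨u, v, hs, hv⟩ := exists_sol hab hc hfm hf1
  have hGc : Continuous fun r => ‖Gx a b x r‖ := (continuous_Gx a b x).norm
  have hxn : ‖(WithLp.toLp 2 x : Sp d)‖ = 1 := by
    rw [EuclideanSpace.norm_eq]
    simp [hx]
  -- the velocity at time `(m + 1) T`
  have hkey : ∀ m : ℕ, (∫ r in (0:ℝ)..T, ‖Gx a b x r‖) - R ≤ ‖v ((m + 1 : ℝ) * T)‖ := by
    intro m
    have ht0 : (0:ℝ) ≤ (m + 1 : ℝ) * T := by positivity
    have hmT : (0:ℝ) ≤ (m:ℝ) * T := by positivity
    have h1 := inner_formula (a := a) (b := b) (x := x) hfm hf1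
      (t := (m + 1 : ℝ) * T) (v := v) (fun i => hv _ ht0 i)
    have hII : ∀ p q : ℝ, IntervalIntegrable
        (fun s => inner ℝ (Gx a b x ((m + 1 : ℝ) * T - s)) (f s)) volume p q := by
      intro p q
      have hc' : Continuous fun s => ‖Gx a b x ((m + 1 : ℝ) * T - s)‖ :=
        hGc.comp (by fun_prop)
      refine (hc'.intervalIntegrable p q).mono_fun ?_ ?_
      · have h2 : Measurable fun s => Gx a b x ((m + 1 : ℝ) * T - s) :=
          ((continuous_Gx a b x).comp (by fun_prop)).measurable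
        exact (h2.inner hfm).aestronglyMeasurable
      · refine Eventually.of_forall fun s => ?_
        beta_reduce
        rw [norm_norm]
        refine (norm_inner_le_norm _ _).trans ?_
        exact mul_le_of_le_one_right (norm_nonneg _) (hf1 s)
    rw [← intervalIntegral.integral_add_adjacent_intervals (hII 0 ((m:ℝ) * T)) (hII _ _)] at h1
    have h2 : ∫ s in ((m:ℝ) * T)..((m + 1 : ℝ) * T),
        inner ℝ (Gx a b x ((m + 1 : ℝ) * T - s)) (f s) = ∫ r in (0:ℝ)..T, ‖Gx a b x r‖ := by
      have h3 : ∫ s in ((m:ℝ) * T)..((m + 1 : ℝ) * T),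
          inner ℝ (Gx a b x ((m + 1 : ℝ) * T - s)) (f s)
          = ∫ s in ((m:ℝ) * T)..((m + 1 : ℝ) * T), ‖Gx a b x ((m + 1 : ℝ) * T - s)‖ := by
        refine intervalIntegral.integral_congr_ae ?_
        have hne : ∀ᵐ s : ℝ, s ≠ (m + 1 : ℝ) * T := by simp [ae_iff, measure_singleton]
        filter_upwards [hne] with s hs1 hs2
        rw [uIoc_of_le (by nlinarith)] at hs2
        have hlt : s < (m + 1 : ℝ) * T := lt_of_le_of_ne hs2.2 hs1
        have h4 : Int.fract (s / T) = s / T - m := by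
          rw [Int.fract_eq_iff]
          refine ⟨?_, ?_, m, by push_cast; ring⟩
          · rw [sub_nonneg, le_div_iff₀ hT]; exact hs2.1.le
          · rw [sub_lt_iff_lt_add, div_lt_iff₀ hT]; linarith
        have h5 : f s = Nx a b x ((m + 1 : ℝ) * T - s) := by
          rw [hf, Fx, h4]
          congr 1
          field_simp
          ring
        rw [h5, inner_Gx_Nx]
      rw [h3, intervalIntegral.integral_comp_sub_left (fun r => ‖Gx a b x r‖)]
      congr 1 <;> ring
    have h6 : -R ≤ ∫ s in (0:ℝ)..((m:ℝ) * T),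
        inner ℝ (Gx a b x ((m + 1 : ℝ) * T - s)) (f s) := by
      have hc' : Continuous fun s => ‖Gx a b x ((m + 1 : ℝ) * T - s)‖ :=
        hGc.comp (by fun_prop)
      have h7 : ‖∫ s in (0:ℝ)..((m:ℝ) * T),
          inner ℝ (Gx a b x ((m + 1 : ℝ) * T - s)) (f s)‖
          ≤ ∫ s in (0:ℝ)..((m:ℝ) * T), ‖Gx a b x ((m + 1 : ℝ) * T - s)‖ := by
        refine intervalIntegral.norm_integral_le_of_norm_le hmT ?_ (hc'.intervalIntegrable _ _)
        refine Eventually.of_forall fun s _ => ?_
        refine (norm_inner_le_norm _ _).trans ?_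
        exact mul_le_of_le_one_right (norm_nonneg _) (hf1 s)
      rw [intervalIntegral.integral_comp_sub_left (fun r => ‖Gx a b x r‖), sub_zero,
        show (m + 1 : ℝ) * T - m * T = T by ring, Real.norm_eq_abs] at h7
      have h8 := hR ((m + 1 : ℝ) * T) (by nlinarith)
      linarith [(abs_le.mp (h7.trans h8)).1]
    have h9 : inner ℝ (WithLp.toLp 2 x : Sp d) (v ((m + 1 : ℝ) * T))
        ≤ ‖v ((m + 1 : ℝ) * T)‖ := by
      refine (real_inner_le_norm _ _).trans ?_
      rw [hxn, one_mul]
    rw [h2] at h1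
    linarith
  -- conclusion
  have hE : essLimsup f ≤ 1 := by
    refine limsup_le_of_le (by isBoundedDefault) (Eventually.of_forall fun s => ?_)
    rw [← ofReal_norm, ← ENNReal.ofReal_one]
    exact ENNReal.ofReal_le_ofReal (hf1 s)
  have hforc : IsForcing f := by
    refine ⟨?_, hE.trans_lt ENNReal.one_lt_top⟩
    have h1 : LocallyIntegrable (fun _ : ℝ => (1:ℝ)) volume := locallyIntegrable_const 1
    refine (LocallyIntegrable.mono h1 hfm.aestronglyMeasurable ?_).locallyIntegrableOn _
    refine Eventually.of_forall fun s => ?_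
    simpa using hf1 s
  have h1 := hK.2 f u v hforc hs
  have h2 : ENNReal.ofReal ((∫ r in (0:ℝ)..T, ‖Gx a b x r‖) - R)
      ≤ limsup (fun t => ‖v t‖ₑ) atTop := by
    refine le_limsup_of_frequently_le ?_ (by isBoundedDefault)
    rw [frequently_atTop]
    intro t
    obtain ⟨m, hm⟩ := exists_nat_ge (t / T)
    refine ⟨(m + 1 : ℝ) * T, ?_, ?_⟩
    · rw [div_le_iff₀ hT] at hm
      nlinarith
    · rw [← ofReal_norm]
      exact ENNReal.ofReal_le_ofReal (hkey m)
  have h3 : ENNReal.ofReal ((∫ r in (0:ℝ)..T, ‖Gx a b x r‖) - R) ≤ ENNReal.ofReal K := by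
    refine h2.trans (h1.trans ?_)
    exact mul_le_of_le_one_right (by positivity) hE
  exact (ENNReal.ofReal_le_ofReal_iff hK.1).mp h3

end Pool.Agent.V1197.VB
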