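import Pool.Agent.V1197.VB.Duh

set_option autoImplicit false

/-!
# The upper bound `K(A, c) ≤ (1 + √d) / c`
-/

namespace Pool.Agent.V1197.VB

open Set MeasureTheory Filter Topology
open scoped ENNReal

variable {d : ℕ}

/-- Pointwise estimate of the impulse response in a direction with coordinates `x`. -/
lemma pointwise_bound {x y γ w : Fin d → ℝ} {ψ N : ℝ} (hx : ∑ i, x i ^ 2 ≤ 1)
    (hψ : 0 ≤ ψ) (hw : ∀ i, 0 ≤ w i) (hγ : ∀ i, |γ i| ≤ ψ + w i) (hN : 0 ≤ N)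
    (hy : ∑ i, y i ^ 2 ≤ N ^ 2) :
    |∑ i, x i * (γ i * y i)| ≤ (ψ + ∑ i, |x i| * w i) * N := by
  have hS : 0 ≤ ∑ i, |x i| * w i := Finset.sum_nonneg fun i _ => mul_nonneg (abs_nonneg _) (hw i)
  have h1 : (∑ i, x i * (γ i * y i)) ^ 2 ≤ (∑ i, (x i * γ i) ^ 2) * ∑ i, y i ^ 2 := by
    have := Finset.sum_mul_sq_le_sq_mul_sq Finset.univ (fun i => x i * γ i) y
    simpa [mul_assoc] using this
  have hxi : ∀ i, |x i| ≤ 1 := by
    intro i
    have h2 : x i ^ 2 ≤ ∑ i, x i ^ 2 :=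
      Finset.single_le_sum (f := fun i => x i ^ 2) (fun i _ => sq_nonneg _) (Finset.mem_univ i)
    exact abs_le_one_iff_mul_self_le_one.mpr (by nlinarith)
  have h2 : ∑ i, (x i * γ i) ^ 2 ≤ (ψ + ∑ i, |x i| * w i) ^ 2 := by
    have h3 : ∀ i, (x i * γ i) ^ 2 ≤ ψ ^ 2 * x i ^ 2 + 2 * ψ * (|x i| * w i)
        + (|x i| * w i) ^ 2 := by
      intro i
      have h4 : γ i ^ 2 ≤ (ψ + w i) ^ 2 := by
        rw [← sq_abs (γ i)]
        exact pow_le_pow_left₀ (abs_nonneg _) (hγ i) 2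
      have h5 : x i ^ 2 = |x i| ^ 2 := (sq_abs _).symm
      have h6 : |x i| ^ 2 ≤ |x i| := by nlinarith [hxi i, abs_nonneg (x i)]
      calc (x i * γ i) ^ 2 = x i ^ 2 * γ i ^ 2 := by ring
        _ ≤ x i ^ 2 * (ψ + w i) ^ 2 := by gcongr
        _ = ψ ^ 2 * x i ^ 2 + 2 * ψ * (x i ^ 2 * w i) + x i ^ 2 * w i ^ 2 := by ring
        _ ≤ ψ ^ 2 * x i ^ 2 + 2 * ψ * (|x i| * w i) + (|x i| * w i) ^ 2 := by
            rw [h5, mul_pow]
            have := mul_le_mul_of_nonneg_right h6 (hw i)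
            have := mul_le_mul_of_nonneg_left this (by positivity : 0 ≤ 2 * ψ)
            linarith
    have h7 : ∑ i, (|x i| * w i) ^ 2 ≤ (∑ i, |x i| * w i) ^ 2 :=
      Finset.sum_sq_le_sq_sum_of_nonneg (fun i _ => mul_nonneg (abs_nonneg _) (hw i))
    calc ∑ i, (x i * γ i) ^ 2
        ≤ ∑ i, (ψ ^ 2 * x i ^ 2 + 2 * ψ * (|x i| * w i) + (|x i| * w i) ^ 2) :=
          Finset.sum_le_sum fun i _ => h3 i
      _ = ψ ^ 2 * ∑ i, x i ^ 2 + 2 * ψ * ∑ i, |x i| * w i + ∑ i, (|x i| * w i) ^ 2 := by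
          rw [Finset.sum_add_distrib, Finset.sum_add_distrib, ← Finset.mul_sum, ← Finset.mul_sum]
      _ ≤ (ψ + ∑ i, |x i| * w i) ^ 2 := by nlinarith [sq_nonneg ψ]
  refine abs_le_of_sq_le_sq (h1.trans ?_) (mul_nonneg (by linarith) hN)
  rw [mul_pow]
  gcongr

/-- The weight dominating the impulse response. -/
noncomputable def wt (c : ℝ) (g : Fin d → ℝ → ℝ) (x : Fin d → ℝ) (r : ℝ) : ℝ :=
  Real.exp (-(c * r)) + ∑ i, |x i| * max (|g i r| - Real.exp (-(c * r))) 0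

lemma integrableOn_exp_c {c : ℝ} (hc : 0 < c) (T : ℝ) :
    IntegrableOn (fun r => Real.exp (-(c * r))) (Ioi T) := by
  have := integrableOn_exp_mul_Ioi (a := -c) (by linarith) T
  simpa [neg_mul] using this

lemma integral_exp_c {c : ℝ} (hc : 0 < c) : ∫ r in Ioi (0:ℝ), Real.exp (-(c * r)) = 1 / c := by
  have := integral_exp_mul_Ioi (a := -c) (by linarith) 0
  simpa [neg_mul] using this

lemma wt_nonneg (c : ℝ) (g : Fin d → ℝ → ℝ) (x : Fin d → ℝ) (r : ℝ) : 0 ≤ wt c g x r :=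
  add_nonneg (Real.exp_pos _).le
    (Finset.sum_nonneg fun i _ => mul_nonneg (abs_nonneg _) (le_max_right _ _))

lemma wt_integrable {lam : Fin d → ℝ} {c : ℝ} (hc : 0 < c) {h g : Fin d → ℝ → ℝ}
    (k : ∀ i, Ker (lam i) c (h i) (g i)) (x : Fin d → ℝ) :
    IntegrableOn (wt c g x) (Ioi 0) := by
  refine (integrableOn_exp_c hc 0).add (integrable_finsetSum _ fun i _ => ?_)
  exact (((k i).int.abs.sub (integrableOn_exp_c hc 0)).pos_part).const_mul _

lemma wt_integral_le {lam : Fin d → ℝ} {c : ℝ} (hc : 0 < c) {h g : Fin d → ℝ → ℝ}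
    (k : ∀ i, Ker (lam i) c (h i) (g i)) {x : Fin d → ℝ} (hx : ∑ i, x i ^ 2 ≤ 1) :
    ∫ r in Ioi (0:ℝ), wt c g x r ≤ (1 + √d) / c := by
  have hi : ∀ i, IntegrableOn (fun r => |x i| * max (|g i r| - Real.exp (-(c * r))) 0) (Ioi 0) :=
    fun i => (((k i).int.abs.sub (integrableOn_exp_c hc 0)).pos_part).const_mul _
  have h1 : ∫ r in Ioi (0:ℝ), wt c g x r
      = 1 / c + ∑ i, |x i| * ∫ r in Ioi (0:ℝ), max (|g i r| - Real.exp (-(c * r))) 0 := by
    unfold wt
    rw [integral_add (integrableOn_exp_c hc 0) (integrable_finsetSum _ fun i _ => hi i),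
      integral_exp_c hc, integral_finsetSum _ (fun i _ => hi i)]
    simp only [integral_const_mul]
  have h2 : ∑ i, |x i| ≤ √d := by
    have h3 := Finset.sum_mul_sq_le_sq_mul_sq Finset.univ (fun i => |x i|) (fun _ => (1:ℝ))
    simp only [mul_one, sq_abs, one_pow, Finset.sum_const, Finset.card_univ, Fintype.card_fin,
      nsmul_eq_mul] at h3
    refine Real.le_sqrt_of_sq_le (h3.trans ?_)
    nlinarith [(Nat.cast_nonneg d : (0:ℝ) ≤ d)]
  rw [h1, add_div]
  gcongr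
  calc ∑ i, |x i| * ∫ r in Ioi (0:ℝ), max (|g i r| - Real.exp (-(c * r))) 0
      ≤ ∑ i, |x i| * (1 / c) :=
        Finset.sum_le_sum fun i _ => mul_le_mul_of_nonneg_left (k i).mass (abs_nonneg _)
    _ = (∑ i, |x i|) / c := by rw [← Finset.sum_mul]; ring
    _ ≤ √d / c := by gcongr


lemma continuous_g {lam c : ℝ} {h g : ℝ → ℝ} (k : Ker lam c h g) : Continuous g :=
  (contDiff_of_kernels k.dh k.dg).2.continuous

lemma continuous_wt {lam : Fin d → ℝ} {c : ℝ} {h g : Fin d → ℝ → ℝ}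
    (k : ∀ i, Ker (lam i) c (h i) (g i)) (x : Fin d → ℝ) : Continuous (wt c g x) := by
  unfold wt
  refine Continuous.add (by fun_prop) (continuous_finsetSum _ fun i _ => ?_)
  have := continuous_g (k i)
  fun_prop

lemma intervalIntegrable_inner {f : ℝ → Sp d} (hf : LocallyIntegrableOn f (Ici 0)) {T₁ t : ℝ}
    (hT : 0 ≤ T₁) (ht : T₁ ≤ t) (y : Sp d) :
    IntervalIntegrable (fun s => inner ℝ y (f s)) volume T₁ t := by
  rw [intervalIntegrable_iff_integrableOn_Icc_of_le ht]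
  have h1 : IntegrableOn f (Icc T₁ t) :=
    hf.integrableOn_compact_subset (fun s hs => hT.trans hs.1) isCompact_Icc
  exact Integrable.const_inner y h1

/-- Estimate of the forced part of a solution. -/
lemma forced_bound {lam : Fin d → ℝ} {c : ℝ} (hc : 0 < c) {h g : Fin d → ℝ → ℝ}
    (k : ∀ i, Ker (lam i) c (h i) (g i)) (b : OrthonormalBasis (Fin d) ℝ (Sp d))
    {f : ℝ → Sp d} (hf : LocallyIntegrableOn f (Ici 0)) {T₁ t N : ℝ} (hT : 0 ≤ T₁)
    (ht : T₁ ≤ t) (hN : 0 ≤ N) (hfN : ∀ᵐ s, T₁ ≤ s → ‖f s‖ ≤ N) {x : Fin d → ℝ}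
    (hx : ∑ i, x i ^ 2 ≤ 1) :
    |∑ i, x i * ∫ s in T₁..t, g i (t - s) * inner ℝ (b i) (f s)| ≤ (1 + √d) / c * N := by
  have hi : ∀ i, IntervalIntegrable (fun s => x i * (g i (t - s) * inner ℝ (b i) (f s)))
      volume T₁ t := by
    intro i
    have hg : Continuous (fun s => g i (t - s)) := (continuous_g (k i)).comp (by fun_prop)
    exact ((intervalIntegrable_inner hf hT ht (b i)).continuousOn_mul hg.continuousOn).const_mul _
  have h1 : ∑ i, x i * ∫ s in T₁..t, g i (t - s) * inner ℝ (b i) (f s)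
      = ∫ s in T₁..t, ∑ i, x i * (g i (t - s) * inner ℝ (b i) (f s)) := by
    rw [intervalIntegral.integral_finsetSum (fun i _ => hi i)]
    simp only [intervalIntegral.integral_const_mul]
  have hcw := continuous_wt k x
  have h2 : ‖∫ s in T₁..t, ∑ i, x i * (g i (t - s) * inner ℝ (b i) (f s))‖
      ≤ ∫ s in T₁..t, wt c g x (t - s) * N := by
    refine intervalIntegral.norm_integral_le_of_norm_le ht ?_ ?_
    · filter_upwards [hfN] with s hs hs'
      have h3 : ∑ i, (inner ℝ (b i) (f s)) ^ 2 ≤ N ^ 2 := by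
        have h4 : ∑ i, (inner ℝ (b i) (f s)) ^ 2 = ‖f s‖ ^ 2 := by
          rw [← b.sum_sq_norm_inner_right (f s)]
          simp
        rw [h4]
        exact pow_le_pow_left₀ (norm_nonneg _) (hs hs'.1.le) 2
      exact pointwise_bound hx (Real.exp_pos _).le (fun i => le_max_right _ _)
        (fun i => by linarith [le_max_left (|g i (t - s)| - Real.exp (-(c * (t - s)))) 0]) hN h3
    · exact Continuous.intervalIntegrable (by fun_prop) _ _
  rw [h1, ← Real.norm_eq_abs]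
  refine h2.trans ?_
  rw [intervalIntegral.integral_mul_const]
  refine mul_le_mul_of_nonneg_right ?_ hN
  rw [intervalIntegral.integral_comp_sub_left (fun r => wt c g x r) t, sub_self,
    intervalIntegral.integral_of_le (by linarith)]
  refine le_trans ?_ (wt_integral_le hc k hx)
  exact setIntegral_mono_set (wt_integrable hc k x)
    (Eventually.of_forall fun r => wt_nonneg c g x r) (Ioc_subset_Ioi_self.eventuallyLE)

/-- The bound for the velocity, up to a transient term. -/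
lemma vel_bound {A : Matrix (Fin d) (Fin d) ℝ} {c : ℝ} (hc : 0 < c) {f u v : ℝ → Sp d}
    (hs : IsSol A c f u v) {lam : Fin d → ℝ} {b : OrthonormalBasis (Fin d) ℝ (Sp d)}
    (hb : ∀ i y, inner ℝ (b i) (Matrix.toEuclideanLin A y) = lam i * inner ℝ (b i) y)
    {h g : Fin d → ℝ → ℝ} (k : ∀ i, Ker (lam i) c (h i) (g i))
    (hf : LocallyIntegrableOn f (Ici 0)) {T₁ t N : ℝ} (hT : 0 ≤ T₁)
    (ht : T₁ ≤ t) (hN : 0 ≤ N) (hfN : ∀ᵐ s, T₁ ≤ s → ‖f s‖ ≤ N) :
    ‖v t‖ ≤ (∑ i, (|g i (t - T₁)| * |inner ℝ (b i) (v T₁)|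
      + |lam i * h i (t - T₁)| * |inner ℝ (b i) (u T₁)|)) + (1 + √d) / c * N := by
  have hR : 0 ≤ (1 + √d) / c * N := by positivity
  have hτ : 0 ≤ ∑ i, (|g i (t - T₁)| * |inner ℝ (b i) (v T₁)|
      + |lam i * h i (t - T₁)| * |inner ℝ (b i) (u T₁)|) :=
    Finset.sum_nonneg fun i _ => by positivity
  rcases eq_or_ne (v t) 0 with h0 | h0
  · rw [h0, norm_zero]; linarith
  have hn : 0 < ‖v t‖ := norm_pos_iff.mpr h0
  obtain ⟨x, hx⟩ : ∃ x : Fin d → ℝ, x = fun i => inner ℝ (b i) (v t) / ‖v t‖ := ⟨_, rfl⟩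
  have hsq : ∑ i, (inner ℝ (b i) (v t)) ^ 2 = ‖v t‖ ^ 2 := by
    rw [← b.sum_sq_norm_inner_right (v t)]
    simp
  have hx1 : ∑ i, x i ^ 2 = 1 := by
    simp only [hx, div_pow]
    rw [← Finset.sum_div, hsq]
    exact div_self (by positivity)
  have hxi : ∀ i, |x i| ≤ 1 := by
    intro i
    have h2 : x i ^ 2 ≤ ∑ i, x i ^ 2 :=
      Finset.single_le_sum (f := fun i => x i ^ 2) (fun i _ => sq_nonneg _) (Finset.mem_univ i)
    exact abs_le_one_iff_mul_self_le_one.mpr (by nlinarith)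
  have hnorm : ‖v t‖ = ∑ i, x i * inner ℝ (b i) (v t) := by
    have : ∑ i, x i * inner ℝ (b i) (v t) = (∑ i, (inner ℝ (b i) (v t)) ^ 2) / ‖v t‖ := by
      rw [Finset.sum_div]
      refine Finset.sum_congr rfl fun i _ => ?_
      rw [hx]
      ring
    rw [this, hsq, sq, mul_div_assoc, div_self hn.ne', mul_one]
  have hd : ∑ i, x i * inner ℝ (b i) (v t)
      = ∑ i, x i * (g i (t - T₁) * inner ℝ (b i) (v T₁)
          - lam i * h i (t - T₁) * inner ℝ (b i) (u T₁))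
        + ∑ i, x i * ∫ s in T₁..t, g i (t - s) * inner ℝ (b i) (f s) := by
    rw [← Finset.sum_add_distrib]
    refine Finset.sum_congr rfl fun i _ => ?_
    rw [duhamel_comp hs (hb i) (k i) hT ht, mul_add]
  rw [hnorm, hd]
  refine add_le_add ?_ ?_
  · refine Finset.sum_le_sum fun i _ => ?_
    refine (le_abs_self _).trans ?_
    rw [abs_mul]
    refine (mul_le_of_le_one_left (abs_nonneg _) (hxi i)).trans ?_
    refine (abs_sub _ _).trans ?_
    rw [abs_mul, abs_mul]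
  · exact (le_abs_self _).trans (forced_bound hc k b hf hT ht hN hfN hx1.le)

end Pool.Agent.V1197.VB
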